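import Mathlib

set_option autoImplicit false

namespace Pool.Agent.Helper685.FE

open Finset

/-- second form of the binomial recursion -/
lemma choose_step (f : ℕ → ℕ → ℝ) (n : ℕ) :
    (∑ ij ∈ antidiagonal (n + 1), ((n + 1).choose ij.1 : ℝ) * f ij.1 ij.2) =
      ∑ ij ∈ antidiagonal n, (n.choose ij.1 : ℝ) * (f ij.1 (ij.2 + 1) + f (ij.1 + 1) ij.2) := by
  rw [sum_antidiagonal_choose_succ_mul, ← sum_add_distrib]
  refine sum_congr rfl (fun ij hij => ?_)
  rw [HasAntidiagonal.mem_antidiagonal] at hij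
  have : n.choose ij.2 = n.choose ij.1 := by
    apply Nat.choose_symm_of_eq_add; omega
  rw [this]; ring

/-- Pascal arrays: total mass -/
lemma arr0 (N : ℕ) : ∀ P : ℕ → ℕ → ℝ, (∀ i j, P i j = P (i + 1) j + P i (j + 1)) →
    ∑ ij ∈ antidiagonal N, (N.choose ij.1 : ℝ) * P ij.1 ij.2 = P 0 0 := by
  induction N with
  | zero => intro P _; simp
  | succ n ih =>
    intro P h
    rw [choose_step, ← ih P h]
    refine sum_congr rfl (fun ij _ => ?_)
    rw [h ij.1 ij.2]; ring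

/-- first moment -/
lemma arr1 (N : ℕ) : ∀ P : ℕ → ℕ → ℝ, (∀ i j, P i j = P (i + 1) j + P i (j + 1)) →
    ∑ ij ∈ antidiagonal N, (N.choose ij.1 : ℝ) * (ij.1 * P ij.1 ij.2) = N * P 1 0 := by
  induction N with
  | zero => intro P _; simp
  | succ n ih =>
    intro P h
    rw [choose_step (fun i j => (i : ℝ) * P i j)]
    have e : ∀ ij ∈ antidiagonal n, (n.choose ij.1 : ℝ) *
        ((ij.1 : ℝ) * P ij.1 (ij.2 + 1) + ((ij.1 + 1 : ℕ) : ℝ) * P (ij.1 + 1) ij.2) =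
        (n.choose ij.1 : ℝ) * (ij.1 * P ij.1 ij.2) + (n.choose ij.1 : ℝ) * P (ij.1 + 1) ij.2 := by
      intro ij _
      rw [h ij.1 ij.2]; push_cast; ring
    rw [sum_congr rfl e, sum_add_distrib, ih P h,
      arr0 n (fun i j => P (i + 1) j) (fun i j => h (i + 1) j)]
    push_cast; ring

/-- second moment -/
lemma arr2 (N : ℕ) : ∀ P : ℕ → ℕ → ℝ, (∀ i j, P i j = P (i + 1) j + P i (j + 1)) →
    ∑ ij ∈ antidiagonal N, (N.choose ij.1 : ℝ) * ((ij.1 * (ij.1 - 1)) * P ij.1 ij.2) =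
      N * (N - 1) * P 2 0 := by
  induction N with
  | zero => intro P _; simp
  | succ n ih =>
    intro P h
    rw [choose_step (fun i j => ((i : ℝ) * (i - 1)) * P i j)]
    have e : ∀ ij ∈ antidiagonal n, (n.choose ij.1 : ℝ) *
        (((ij.1 : ℝ) * (ij.1 - 1)) * P ij.1 (ij.2 + 1) +
          (((ij.1 + 1 : ℕ) : ℝ) * (((ij.1 + 1 : ℕ) : ℝ) - 1)) * P (ij.1 + 1) ij.2) =
        (n.choose ij.1 : ℝ) * ((ij.1 * (ij.1 - 1)) * P ij.1 ij.2) +
          2 * ((n.choose ij.1 : ℝ) * (ij.1 * P (ij.1 + 1) ij.2)) := by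
      intro ij _
      rw [h ij.1 ij.2]; push_cast; ring
    rw [sum_congr rfl e, sum_add_distrib, ih P h, ← mul_sum,
      arr1 n (fun i j => P (i + 1) j) (fun i j => h (i + 1) j)]
    push_cast; ring

/-- log-convexity of the first column -/
lemma arr_logconvex (P : ℕ → ℕ → ℝ) (h0 : ∀ i j, 0 ≤ P i j)
    (h : ∀ i j, P i j = P (i + 1) j + P i (j + 1)) : P 1 0 ^ 2 ≤ P 0 0 * P 2 0 := by
  have key : ∀ N : ℕ, 0 < N → P 1 0 ^ 2 ≤ P 0 0 * (P 2 0 + P 1 0 * (1 / (N : ℝ))) := by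
    intro N hN
    have hNr : (0 : ℝ) < N := Nat.cast_pos.2 hN
    have cs := sum_sq_le_sum_mul_sum_of_sq_le_mul (antidiagonal N)
      (r := fun ij => (N.choose ij.1 : ℝ) * (ij.1 * P ij.1 ij.2))
      (f := fun ij => (N.choose ij.1 : ℝ) * P ij.1 ij.2)
      (g := fun ij => (N.choose ij.1 : ℝ) * ((ij.1 : ℝ) ^ 2 * P ij.1 ij.2))
      (fun ij _ => mul_nonneg (Nat.cast_nonneg _) (h0 _ _))
      (fun ij _ => mul_nonneg (Nat.cast_nonneg _) (mul_nonneg (sq_nonneg _) (h0 _ _)))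
      (fun ij _ => le_of_eq (by ring))
    rw [arr0 N P h, arr1 N P h] at cs
    have e : ∑ ij ∈ antidiagonal N, (N.choose ij.1 : ℝ) * ((ij.1 : ℝ) ^ 2 * P ij.1 ij.2) =
        N * (N - 1) * P 2 0 + N * P 1 0 := by
      rw [← arr2 N P h, ← arr1 N P h, ← sum_add_distrib]
      refine sum_congr rfl (fun ij _ => by ring)
    rw [e] at cs
    have h00 := h0 0 0
    have h20 := h0 2 0
    have h10 := h0 1 0
    have c2 : (N * P 1 0) ^ 2 ≤ P 0 0 * ((N : ℝ) ^ 2 * P 2 0 + N * P 1 0) := by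
      refine cs.trans (mul_le_mul_of_nonneg_left ?_ h00)
      nlinarith
    have : P 1 0 ^ 2 * (N : ℝ) ^ 2 ≤ (P 0 0 * (P 2 0 + P 1 0 * (1 / (N : ℝ)))) * (N : ℝ) ^ 2 := by
      have e2 : (P 0 0 * (P 2 0 + P 1 0 * (1 / (N : ℝ)))) * (N : ℝ) ^ 2 =
          P 0 0 * ((N : ℝ) ^ 2 * P 2 0 + N * P 1 0) := by field_simp
      rw [e2]; nlinarith
    exact le_of_mul_le_mul_right this (by positivity)
  have hlim : Filter.Tendsto (fun N : ℕ => P 0 0 * (P 2 0 + P 1 0 * (1 / (N : ℝ))))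
      Filter.atTop (nhds (P 0 0 * (P 2 0 + P 1 0 * 0))) := by
    exact (tendsto_const_nhds.add (tendsto_const_nhds.mul tendsto_one_div_atTop_nhds_zero_nat)).const_mul _
  rw [mul_zero, add_zero] at hlim
  refine ge_of_tendsto hlim ?_
  filter_upwards [Filter.eventually_gt_atTop 0] with N hN
  exact key N hN

/-- the form used later -/
lemma arr_logconvex' (P : ℕ → ℕ → ℝ) (h0 : ∀ i j, 0 ≤ P i j)
    (h : ∀ i j, P i j = P (i + 1) j + P i (j + 1)) : P 1 1 ^ 2 ≤ P 0 2 * P 2 0 := by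
  have h1 := arr_logconvex P h0 h
  have a := h 0 0
  have b := h 1 0
  have c := h 0 1
  simp only [zero_add, Nat.reduceAdd] at a b c
  rw [a, b, c] at h1
  nlinarith

/-- numeric separation lemma -/
lemma separate (p1 p2 : ℝ) (h1 : 0 < p1) (h12 : p1 < p2) (h2 : p2 < 1) :
    ∃ m n : ℕ, 0 < m ∧ 0 < n ∧ Even m ∧ Even n ∧ p1 ^ m < (1 - p1) ^ n ∧ (1 - p2) ^ n < p2 ^ m := by
  have l1 : Real.log p1 < Real.log p2 := Real.log_lt_log h1 h12
  have l2 : Real.log p2 < 0 := Real.log_neg (by linarith) h2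
  have r1 : Real.log (1 - p2) < Real.log (1 - p1) := Real.log_lt_log (by linarith) (by linarith)
  have r2 : Real.log (1 - p1) < 0 := Real.log_neg (by linarith) (by linarith)
  have hR1 : 0 < -Real.log (1 - p1) := by linarith
  have hR2 : 0 < -Real.log (1 - p2) := by linarith
  have hlt : (-Real.log p2) / (-Real.log (1 - p2)) < (-Real.log p1) / (-Real.log (1 - p1)) := by
    rw [div_lt_div_iff₀ hR2 hR1]
    nlinarith
  have hpos : 0 < (-Real.log p2) / (-Real.log (1 - p2)) := div_pos (by linarith) hR2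
  obtain ⟨q, hq1, hq2⟩ := exists_rat_btwn hlt
  have hqpos : (0 : ℝ) < q := hpos.trans hq1
  have hqpos' : 0 < q := by exact_mod_cast hqpos
  have hnum : 0 < q.num := Rat.num_pos.2 hqpos'
  obtain ⟨n, hn⟩ := Int.eq_ofNat_of_zero_le hnum.le
  have hn0 : 0 < n := by
    have : (0 : ℤ) < (n : ℤ) := hn ▸ hnum
    exact_mod_cast this
  have hd : 0 < q.den := q.den_pos
  have hqe : (q : ℝ) = (n : ℝ) / (q.den : ℝ) := by
    rw [Rat.cast_def q, hn]; simp
  have hdr : (0 : ℝ) < q.den := Nat.cast_pos.2 hd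
  rw [hqe] at hq1 hq2
  rw [div_lt_div_iff₀ hR2 hdr] at hq1
  rw [div_lt_div_iff₀ hdr hR1] at hq2
  refine ⟨2 * q.den, 2 * n, by omega, by omega, even_two_mul _, even_two_mul _, ?_, ?_⟩
  · rw [← Real.log_lt_log_iff (by positivity) (pow_pos (by linarith) _), Real.log_pow, Real.log_pow]
    push_cast
    nlinarith
  · rw [← Real.log_lt_log_iff (pow_pos (by linarith) _) (pow_pos (by linarith) _), Real.log_pow,
      Real.log_pow]
    push_cast
    nlinarith

end Pool.Agent.Helper685.FE
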