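import Mathlib

set_option autoImplicit false

namespace Pool.Agent.Helper685.FE

/-- a continuous self-map of an interval of positive reals whose orbits are log-convex -/
structure Sys (J : Set ℝ) (g : ℝ → ℝ) : Prop where
  ord : J.OrdConnected
  pos : ∀ x ∈ J, 0 < x
  cont : ContinuousOn g J
  maps : ∀ x ∈ J, g x ∈ J
  log : ∀ x ∈ J, g x ^ 2 ≤ x * g (g x)

/-- growth along the orbit is at most `β` -/
def Slow (g : ℝ → ℝ) (β u : ℝ) : Prop := ∀ i : ℕ, g^[i + 1] u ≤ β * g^[i] u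

namespace Sys
variable {J : Set ℝ} {g : ℝ → ℝ}

lemma iter_mem (S : Sys J g) {x : ℝ} (hx : x ∈ J) (k : ℕ) : g^[k] x ∈ J := by
  induction k with
  | zero => simpa using hx
  | succ k ih => rw [Function.iterate_succ_apply']; exact S.maps _ ih

lemma iter_pos (S : Sys J g) {x : ℝ} (hx : x ∈ J) (k : ℕ) : 0 < g^[k] x := S.pos _ (S.iter_mem hx k)

lemma iter_cont (S : Sys J g) (k : ℕ) : ContinuousOn (g^[k]) J :=
  S.cont.iterate (fun x hx => S.maps x hx) k

lemma ratio (S : Sys J g) {x : ℝ} (hx : x ∈ J) (k : ℕ) : g x * g^[k] x ≤ x * g^[k + 1] x := by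
  induction k with
  | zero => simp [mul_comm]
  | succ k ih =>
    have hk := S.iter_pos hx k
    have hk1 := S.iter_pos hx (k + 1)
    have hl := S.log _ (S.iter_mem hx k)
    rw [← Function.iterate_succ_apply' g k x, ← Function.iterate_succ_apply' g (k + 1) x] at hl
    have hxp := S.pos x hx
    have h1 : (g x * g^[k + 1] x) * g^[k] x ≤ (x * g^[k + 1 + 1] x) * g^[k] x := by
      calc (g x * g^[k + 1] x) * g^[k] x = (g x * g^[k] x) * g^[k + 1] x := by ring
        _ ≤ (x * g^[k + 1] x) * g^[k + 1] x := mul_le_mul_of_nonneg_right ih hk1.le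
        _ = x * (g^[k + 1] x) ^ 2 := by ring
        _ ≤ x * (g^[k] x * g^[k + 1 + 1] x) := mul_le_mul_of_nonneg_left hl hxp.le
        _ = (x * g^[k + 1 + 1] x) * g^[k] x := by ring
    exact le_of_mul_le_mul_right h1 hk

lemma slow_back (S : Sys J g) {z β : ℝ} (hz : z ∈ J) (k : ℕ) (h : Slow g β (g^[k] z)) :
    Slow g β z := by
  intro i
  have hy := S.iter_mem hz i
  have h1 := S.ratio hy k
  have h2 := h i
  have e1 : g^[i + 1] (g^[k] z) = g^[k + 1] (g^[i] z) := by
    rw [← Function.iterate_add_apply, ← Function.iterate_add_apply]; congr 1; omega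
  have e2 : g^[i] (g^[k] z) = g^[k] (g^[i] z) := by
    rw [← Function.iterate_add_apply, ← Function.iterate_add_apply]; congr 1; omega
  rw [e1, e2] at h2
  have hp := S.iter_pos hy k
  have hyp := S.pos _ hy
  rw [Function.iterate_succ_apply']
  have h3 : g (g^[i] z) * g^[k] (g^[i] z) ≤ (β * g^[i] z) * g^[k] (g^[i] z) := by
    calc _ ≤ g^[i] z * g^[k + 1] (g^[i] z) := h1
      _ ≤ g^[i] z * (β * g^[k] (g^[i] z)) := mul_le_mul_of_nonneg_left h2 hyp.le
      _ = _ := by ring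
  exact le_of_mul_le_mul_right h3 hp

lemma slow_fwd {u β : ℝ} (k : ℕ) (h : Slow g β u) : Slow g β (g^[k] u) := by
  intro i
  rw [← Function.iterate_add_apply, ← Function.iterate_add_apply]
  have := h (i + k)
  rwa [show i + 1 + k = i + k + 1 by omega]

lemma slow_bound {u β : ℝ} (hβ : 0 ≤ β) (h : Slow g β u) (k : ℕ) : g^[k] u ≤ β ^ k * u := by
  induction k with
  | zero => simp
  | succ k ih =>
    calc g^[k + 1] u ≤ β * g^[k] u := h k
      _ ≤ β * (β ^ k * u) := mul_le_mul_of_nonneg_left ih hβ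
      _ = β ^ (k + 1) * u := by ring

lemma fast_step (S : Sys J g) {y b : ℝ} (hy : y ∈ J) (h : b * y ≤ g y) (k : ℕ) :
    b * g^[k] y ≤ g^[k + 1] y := by
  have h1 := S.ratio hy k
  have hyp := S.pos _ hy
  have hk := S.iter_pos hy k
  have h2 : y * (b * g^[k] y) ≤ y * g^[k + 1] y := by
    calc y * (b * g^[k] y) = (b * y) * g^[k] y := by ring
      _ ≤ g y * g^[k] y := mul_le_mul_of_nonneg_right h hk.le
      _ ≤ _ := h1
  exact le_of_mul_le_mul_left h2 hyp

lemma fast_bound (S : Sys J g) {y b : ℝ} (hb : 0 ≤ b) (hy : y ∈ J) (h : b * y ≤ g y) (k : ℕ) :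
    b ^ k * y ≤ g^[k] y := by
  induction k with
  | zero => simp
  | succ k ih =>
    calc b ^ (k + 1) * y = b * (b ^ k * y) := by ring
      _ ≤ b * g^[k] y := mul_le_mul_of_nonneg_left ih hb
      _ ≤ _ := S.fast_step hy h k

/-- slow points avoid the windows swept by the images of an interval joining a slow and a fast
point -/
lemma window (S : Sys J g) {x y u β b : ℝ} (hx : x ∈ J) (hy : y ∈ J) (hβ : 0 ≤ β) (hb : 0 ≤ b)
    (hsx : Slow g β x) (hfy : b * y ≤ g y) (hu : Slow g β u) (k : ℕ)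
    (h1 : β ^ k * max x y < u) (h2 : u < b ^ k * y) : False := by
  have hxk := slow_bound hβ hsx k
  have hyk := S.fast_bound hb hy hfy k
  have hsub : Set.uIcc x y ⊆ J := S.ord.uIcc_subset hx hy
  have hc : ContinuousOn (g^[k]) (Set.uIcc x y) := (S.iter_cont k).mono hsub
  have hβk : 0 ≤ β ^ k := pow_nonneg hβ k
  have hu1 : g^[k] x ≤ u := by
    calc g^[k] x ≤ β ^ k * x := hxk
      _ ≤ β ^ k * max x y := mul_le_mul_of_nonneg_left (le_max_left _ _) hβk
      _ ≤ u := h1.le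
  have hu2 : u ≤ g^[k] y := h2.le.trans hyk
  have hmem : u ∈ Set.uIcc (g^[k] x) (g^[k] y) := Set.mem_uIcc.2 (Or.inl ⟨hu1, hu2⟩)
  obtain ⟨z, hz, hzu⟩ := intermediate_value_uIcc hc hmem
  have hzJ := hsub hz
  have hsz : Slow g β z := S.slow_back hzJ k (by rw [hzu]; exact hu)
  have hzk := slow_bound hβ hsz k
  have hzmax : z ≤ max x y := by
    rcases Set.mem_uIcc.1 hz with h | h
    · exact h.2.trans (le_max_right _ _)
    · exact h.2.trans (le_max_left _ _)
  have : u ≤ β ^ k * max x y := by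
    rw [← hzu]
    exact hzk.trans (mul_le_mul_of_nonneg_left hzmax hβk)
  linarith

/-- windows cover a neighbourhood of zero -/
lemma cover_zero {β b M y : ℝ} (hβ : 0 ≤ β) (hβb : β < b) (hβ1 : β < 1) (hM : 0 < M) (hy : 0 < y) :
    ∃ T : ℝ, 0 < T ∧ ∀ t, 0 < t → t < T → ∃ k : ℕ, β ^ k * M < t ∧ t < b ^ k * y := by
  have hb : 0 < b := lt_of_le_of_lt hβ hβb
  -- eventually β^k M < b^(k+1) y
  have hr : Filter.Tendsto (fun k : ℕ => (β / b) ^ k) Filter.atTop (nhds 0) :=
    tendsto_pow_atTop_nhds_zero_of_lt_one (by positivity) (by rw [div_lt_one hb]; exact hβb)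
  have hev : ∀ᶠ k in Filter.atTop, (β / b) ^ k < b * y / M :=
    hr.eventually (gt_mem_nhds (by positivity))
  obtain ⟨k0, hk0⟩ := Filter.eventually_atTop.1 hev
  have hk : ∀ k, k0 ≤ k → β ^ k * M < b ^ (k + 1) * y := by
    intro k hk
    have := hk0 k hk
    rw [div_pow, div_lt_div_iff₀ (by positivity) hM] at this
    calc β ^ k * M < b * y * b ^ k := this
      _ = b ^ (k + 1) * y := by ring
  refine ⟨b ^ k0 * y, by positivity, fun t ht0 htT => ?_⟩
  have hz : Filter.Tendsto (fun k : ℕ => β ^ k * M) Filter.atTop (nhds (0 * M)) :=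
    (tendsto_pow_atTop_nhds_zero_of_lt_one hβ hβ1).mul_const M
  rw [zero_mul] at hz
  have hev2 : ∀ᶠ k in Filter.atTop, β ^ k * M < t := hz.eventually (gt_mem_nhds ht0)
  obtain ⟨k1, hk1⟩ := Filter.eventually_atTop.1 hev2
  classical
  have hex : ∃ k, k0 ≤ k ∧ β ^ k * M < t := ⟨max k0 k1, le_max_left _ _, hk1 _ (le_max_right _ _)⟩
  set k := Nat.find hex with hkdef
  have hspec := Nat.find_spec hex
  refine ⟨k, hspec.2, ?_⟩
  rcases Nat.eq_or_lt_of_le hspec.1 with heq | hlt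
  · rw [hkdef, ← heq]; exact htT
  · obtain ⟨j, hj⟩ : ∃ j, k = j + 1 := ⟨k - 1, by omega⟩
    have hj0 : k0 ≤ j := by omega
    have hmin := Nat.find_min hex (m := j) (by omega)
    have : t ≤ β ^ j * M := by
      by_contra hcon
      exact hmin ⟨hj0, by linarith⟩
    rw [hj]
    exact lt_of_le_of_lt this (hk j hj0)

/-- windows cover a neighbourhood of infinity -/
lemma cover_top {β b M y : ℝ} (hβ : 0 ≤ β) (hβb : β < b) (hb1 : 1 < b) (hM : 0 < M) (hy : 0 < y) :
    ∃ T : ℝ, ∀ t, T < t → ∃ k : ℕ, β ^ k * M < t ∧ t < b ^ k * y := by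
  have hb : 0 < b := by linarith
  have hr : Filter.Tendsto (fun k : ℕ => (β / b) ^ k) Filter.atTop (nhds 0) :=
    tendsto_pow_atTop_nhds_zero_of_lt_one (by positivity) (by rw [div_lt_one hb]; exact hβb)
  have hev : ∀ᶠ k in Filter.atTop, (β / b) ^ k < y / ((β + 1) * M) :=
    hr.eventually (gt_mem_nhds (by positivity))
  obtain ⟨k0, hk0⟩ := Filter.eventually_atTop.1 hev
  have hk : ∀ k, k0 ≤ k → β ^ (k + 1) * M < b ^ k * y := by
    intro k hk
    have := hk0 k hk
    rw [div_pow, div_lt_div_iff₀ (by positivity) (by positivity)] at this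
    have hβk : 0 ≤ β ^ k := pow_nonneg hβ k
    calc β ^ (k + 1) * M ≤ β ^ k * ((β + 1) * M) := by
          have : β ^ (k + 1) * M = β ^ k * (β * M) := by ring
          rw [this]
          apply mul_le_mul_of_nonneg_left _ hβk
          nlinarith
      _ < y * b ^ k := this
      _ = b ^ k * y := by ring
  refine ⟨β ^ k0 * M, fun t ht => ?_⟩
  have hz : Filter.Tendsto (fun k : ℕ => b ^ k * y) Filter.atTop Filter.atTop :=
    (tendsto_pow_atTop_atTop_of_one_lt hb1).atTop_mul_const hy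
  have hev2 : ∀ᶠ k in Filter.atTop, t < b ^ k * y := hz.eventually_gt_atTop t
  obtain ⟨k1, hk1⟩ := Filter.eventually_atTop.1 hev2
  classical
  have hex : ∃ k, k0 ≤ k ∧ t < b ^ k * y := ⟨max k0 k1, le_max_left _ _, hk1 _ (le_max_right _ _)⟩
  set k := Nat.find hex with hkdef
  have hspec := Nat.find_spec hex
  refine ⟨k, ?_, hspec.2⟩
  rcases Nat.eq_or_lt_of_le hspec.1 with heq | hlt
  · rw [hkdef, ← heq]; exact ht
  · obtain ⟨j, hj⟩ : ∃ j, k = j + 1 := ⟨k - 1, by omega⟩
    have hj0 : k0 ≤ j := by omega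
    have hmin := Nat.find_min hex (m := j) (by omega)
    have : b ^ j * y ≤ t := by
      by_contra hcon
      exact hmin ⟨hj0, by linarith⟩
    rw [hj]
    exact lt_of_lt_of_le (hk j hj0) this

/-- a slow point with rate `β < 1` forces every point to be slow -/
lemma all_slow_of_lt_one (S : Sys J g) {x y β : ℝ} (hx : x ∈ J) (hy : y ∈ J) (hβ : 0 ≤ β)
    (hβ1 : β < 1) (hsx : Slow g β x) : g y ≤ β * y := by
  by_contra hcon
  push Not at hcon
  have hyp := S.pos y hy
  have hxp := S.pos x hx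
  set b := g y / y with hb
  have hby : b * y = g y := by rw [hb]; field_simp
  have hβb : β < b := by rw [hb, lt_div_iff₀ hyp]; exact hcon
  have hb0 : 0 ≤ b := hβ.trans hβb.le
  obtain ⟨T, hT, hcov⟩ := cover_zero (M := max x y) hβ hβb hβ1 (lt_max_of_lt_left hxp) hyp
  have hz : Filter.Tendsto (fun k : ℕ => β ^ k * x) Filter.atTop (nhds (0 * x)) :=
    (tendsto_pow_atTop_nhds_zero_of_lt_one hβ hβ1).mul_const x
  rw [zero_mul] at hz
  obtain ⟨i, hi⟩ := (hz.eventually (gt_mem_nhds hT)).exists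
  have hui : g^[i] x < T := lt_of_le_of_lt (slow_bound hβ hsx i) hi
  obtain ⟨k, hk1, hk2⟩ := hcov _ (S.iter_pos hx i) hui
  exact S.window hx hy hβ hb0 hsx hby.le (slow_fwd i hsx) k hk1 hk2

/-- a slow point, together with unboundedly many slow points, forces every point to be slow -/
lemma all_slow_of_unbounded (S : Sys J g) {x y β : ℝ} (hx : x ∈ J) (hy : y ∈ J) (hβ : 0 ≤ β)
    (hsx : Slow g β x) (hunb : ∀ T : ℝ, ∃ u, T < u ∧ Slow g β u) : g y ≤ β * y := by
  rcases lt_or_ge β 1 with hβ1 | hβ1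
  · exact S.all_slow_of_lt_one hx hy hβ hβ1 hsx
  by_contra hcon
  push Not at hcon
  have hyp := S.pos y hy
  have hxp := S.pos x hx
  set b := g y / y with hb
  have hby : b * y = g y := by rw [hb]; field_simp
  have hβb : β < b := by rw [hb, lt_div_iff₀ hyp]; exact hcon
  have hb0 : 0 ≤ b := hβ.trans hβb.le
  obtain ⟨T, hcov⟩ := cover_top (M := max x y) hβ hβb (lt_of_le_of_lt hβ1 hβb)
    (lt_max_of_lt_left hxp) hyp
  obtain ⟨u, hTu, hu⟩ := hunb T
  obtain ⟨k, hk1, hk2⟩ := hcov u hTu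
  exact S.window hx hy hβ hb0 hsx hby.le hu k hk1 hk2

end Sys
end Pool.Agent.Helper685.FE
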