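import Mathlib
import Pool.Agent.Helper685.FE.Arr
import Pool.Agent.Helper685.FE.Sys

set_option autoImplicit false

namespace Pool.Agent.Helper685.FE

/-- continuous solution of the functional equation -/
structure Sol (f : ℝ → ℝ) : Prop where
  cont : Continuous f
  eq : ∀ x, f (x + f x) = f x + f (f x)

/-- the companion map `x + f x` -/
def ph (f : ℝ → ℝ) (x : ℝ) : ℝ := x + f x

namespace Sol
variable {f : ℝ → ℝ}

lemma zero (h : Sol f) : f 0 = 0 := by
  have := h.eq 0
  rw [zero_add] at this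
  linarith

lemma ph_zero (h : Sol f) : ph f 0 = 0 := by simp [ph, h.zero]

lemma ph_cont (h : Sol f) : Continuous (ph f) := continuous_id.add h.cont

lemma comm (h : Sol f) : Function.Commute f (ph f) := fun x => h.eq x

lemma comm_apply (h : Sol f) (x : ℝ) : f (ph f x) = ph f (f x) := h.eq x

lemma comm_it (h : Sol f) (m n : ℕ) (x : ℝ) : f^[m] ((ph f)^[n] x) = (ph f)^[n] (f^[m] x) :=
  (h.comm.iterate_iterate m n).eq x

lemma comm_f (h : Sol f) (n : ℕ) (x : ℝ) : f ((ph f)^[n] x) = (ph f)^[n] (f x) :=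
  h.comm_it 1 n x

lemma comm_p (h : Sol f) (m : ℕ) (x : ℝ) : f^[m] (ph f x) = ph f (f^[m] x) :=
  h.comm_it m 1 x

end Sol

/-- the weak expanding regime -/
structure Weak (f : ℝ → ℝ) : Prop extends Sol f where
  neg : ∀ x, 0 ≤ x → f x ≤ -x
  pos : ∀ x, x ≤ 0 → -x ≤ f x

namespace Weak
variable {f : ℝ → ℝ}

lemma abs_f (h : Weak f) (x : ℝ) : |f x| = |x| + |ph f x| := by
  unfold ph
  rcases le_total 0 x with hx | hx
  · have := h.neg x hx
    rw [abs_of_nonpos (by linarith : f x ≤ 0), abs_of_nonneg hx,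
      abs_of_nonpos (by linarith : x + f x ≤ 0)]
    ring
  · have := h.pos x hx
    rw [abs_of_nonneg (by linarith : 0 ≤ f x), abs_of_nonpos hx,
      abs_of_nonneg (by linarith : 0 ≤ x + f x)]
    ring

lemma surj (h : Weak f) : Function.Surjective f := by
  apply h.cont.surjective'
  · refine Filter.tendsto_atTop_mono' _ ?_ Filter.tendsto_neg_atBot_atTop
    filter_upwards [Filter.eventually_le_atBot (0 : ℝ)] with x hx
    exact h.pos x hx
  · refine Filter.tendsto_atBot_mono' _ ?_ Filter.tendsto_neg_atTop_atBot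
    filter_upwards [Filter.eventually_ge_atTop (0 : ℝ)] with x hx
    exact h.neg x hx

lemma abs_le_f (h : Weak f) (x : ℝ) : |x| ≤ |f x| := by
  rw [h.abs_f x]; linarith [abs_nonneg (ph f x)]

lemma abs_le_it (h : Weak f) (n : ℕ) (x : ℝ) : |x| ≤ |f^[n] x| := by
  induction n with
  | zero => simp
  | succ n ih => rw [Function.iterate_succ_apply']; exact ih.trans (h.abs_le_f _)

/-- log-convexity along orbits of `ph f` -/
lemma logc (h : Weak f) (x : ℝ) : |ph f x| ^ 2 ≤ |x| * |ph f (ph f x)| := by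
  obtain ⟨s, hs⟩ := h.surj.hasRightInverse
  let Y : ℕ → ℝ := fun n => match n with
    | 0 => f (f x)
    | 1 => f x
    | n + 2 => s^[n] x
  have hY : ∀ n, f (Y (n + 1)) = Y n := by
    intro n
    match n with
    | 0 => rfl
    | 1 => rfl
    | n + 2 =>
      show f (s^[n + 1] x) = s^[n] x
      rw [Function.iterate_succ_apply']; exact hs _
  have := arr_logconvex' (fun i j => |(ph f)^[i] (Y (i + j))|) (fun i j => abs_nonneg _) (by
    intro i j
    show |(ph f)^[i] (Y (i + j))| = |(ph f)^[i + 1] (Y (i + 1 + j))| + |(ph f)^[i] (Y (i + (j + 1)))|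
    rw [← hY (i + j), ← h.comm_f, h.abs_f, Function.iterate_succ_apply',
      show i + 1 + j = i + j + 1 by omega, show i + (j + 1) = i + j + 1 by omega]
    ring)
  exact this

lemma ratio1 (h : Weak f) (x : ℝ) (k : ℕ) (hx : ∀ y, y ≠ 0 → ph f y ≠ 0) (hx0 : x ≠ 0) :
    |ph f x| * |(ph f)^[k] x| ≤ |x| * |(ph f)^[k + 1] x| := by
  have hne : ∀ k, (ph f)^[k] x ≠ 0 := by
    intro k
    induction k with
    | zero => simpa using hx0
    | succ k ih => rw [Function.iterate_succ_apply']; exact hx _ ih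
  induction k with
  | zero => simp [mul_comm]
  | succ k ih =>
    have hk : 0 < |(ph f)^[k] x| := abs_pos.2 (hne k)
    have hl := h.logc ((ph f)^[k] x)
    rw [← Function.iterate_succ_apply' (ph f) k x, ← Function.iterate_succ_apply' (ph f) (k + 1) x] at hl
    have h1 : (|ph f x| * |(ph f)^[k + 1] x|) * |(ph f)^[k] x| ≤
        (|x| * |(ph f)^[k + 1 + 1] x|) * |(ph f)^[k] x| := by
      calc (|ph f x| * |(ph f)^[k + 1] x|) * |(ph f)^[k] x|
          = (|ph f x| * |(ph f)^[k] x|) * |(ph f)^[k + 1] x| := by ring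
        _ ≤ (|x| * |(ph f)^[k + 1] x|) * |(ph f)^[k + 1] x| :=
            mul_le_mul_of_nonneg_right ih (abs_nonneg _)
        _ = |x| * |(ph f)^[k + 1] x| ^ 2 := by ring
        _ ≤ |x| * (|(ph f)^[k] x| * |(ph f)^[k + 1 + 1] x|) :=
            mul_le_mul_of_nonneg_left hl (abs_nonneg _)
        _ = _ := by ring
    exact le_of_mul_le_mul_right h1 hk

lemma growth (h : Weak f) (w : ℝ) (n : ℕ) : |w| + n * |ph f w| ≤ |f^[n] w| := by
  induction n with
  | zero => simp
  | succ n ih =>
    rw [Function.iterate_succ_apply', h.abs_f, ← h.comm_p]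
    have := h.abs_le_it n (ph f w)
    push_cast
    linarith

/-- large values of `ph f` of both parities -/
lemma ph_large (h : Weak f) {y : ℝ} (hy : ph f (ph f y) ≠ 0) (T : ℝ) :
    ∃ n : ℕ, T ≤ |ph f (f^[n] y)| := by
  obtain ⟨n, hn⟩ := exists_nat_ge (T / |ph f (ph f y)|)
  refine ⟨n, ?_⟩
  rw [← h.comm_p]
  have := h.growth (ph f y) n
  have hp : 0 < |ph f (ph f y)| := abs_pos.2 hy
  rw [div_le_iff₀ hp] at hn
  linarith [abs_nonneg (ph f y)]

/-- a nonzero zero of `ph f` forces `ph f = 0` -/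
lemma dichotomy (h : Weak f) {x0 : ℝ} (hx0 : x0 ≠ 0) (hz : ph f x0 = 0) (y : ℝ) : ph f y = 0 := by
  by_contra hy
  have hfx0 : f x0 = -x0 := by unfold ph at hz; linarith
  have hz' : ph f (-x0) = 0 := by
    rw [← hfx0, ← h.comm_apply, hz, h.zero]
  have hy2 : ph f (ph f y) ≠ 0 := by
    intro h0
    have := h.logc y
    rw [h0, abs_zero, mul_zero] at this
    have h2 : |ph f y| = 0 := by
      have := abs_nonneg (ph f y)
      nlinarith
    exact hy (abs_eq_zero.1 h2)
  obtain ⟨n, hn⟩ := h.ph_large hy2 |x0|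
  set Y := f^[n] y with hY
  have hYp : ph f Y ≠ 0 := by
    intro h0
    rw [h0, abs_zero] at hn
    exact hx0 (abs_eq_zero.1 (le_antisymm hn (abs_nonneg _)))
  have hY0 : Y ≠ 0 := by
    intro h0
    exact hYp (by rw [h0, h.ph_zero])
  -- choose the zero with the sign of Y
  obtain ⟨x1, hx1z, hx1z', hx1abs, hx1s⟩ : ∃ x1, ph f x1 = 0 ∧ ph f (-x1) = 0 ∧ |x1| = |x0| ∧
      0 < x1 * Y := by
    rcases lt_or_gt_of_ne hY0 with hneg | hpos
    · refine ⟨-|x0|, ?_, ?_, by simp, ?_⟩
      · rcases abs_choice x0 with h1 | h1 <;> rw [h1]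
        · exact hz'
        · simpa using hz
      · rcases abs_choice x0 with h1 | h1 <;> rw [h1]
        · simpa using hz
        · simpa using hz'
      · have : 0 < |x0| := abs_pos.2 hx0
        nlinarith
    · refine ⟨|x0|, ?_, ?_, by simp, ?_⟩
      · rcases abs_choice x0 with h1 | h1 <;> rw [h1]
        · exact hz
        · exact hz'
      · rcases abs_choice x0 with h1 | h1 <;> rw [h1]
        · exact hz'
        · simpa using hz
      · have : 0 < |x0| := abs_pos.2 hx0
        positivity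
  have hx1ne : x1 ≠ 0 := by
    intro h0; rw [h0, zero_mul] at hx1s; exact lt_irrefl _ hx1s
  have hmem : -x1 ∈ Set.uIcc (ph f x1) (ph f Y) := by
    rw [hx1z, Set.mem_uIcc]
    rw [← hx1abs] at hn
    rcases lt_or_gt_of_ne hY0 with hneg | hpos
    · have hx1neg : x1 < 0 := by
        by_contra hc
        push Not at hc
        nlinarith
      left
      have hpY : 0 ≤ ph f Y := by unfold ph; linarith [h.pos Y hneg.le]
      rw [abs_of_neg hx1neg, abs_of_nonneg hpY] at hn
      exact ⟨by linarith, hn⟩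
    · have hx1pos : 0 < x1 := by
        by_contra hc
        push Not at hc
        nlinarith
      right
      have hpY : ph f Y ≤ 0 := by unfold ph; linarith [h.neg Y hpos.le]
      rw [abs_of_pos hx1pos, abs_of_nonpos hpY] at hn
      exact ⟨by linarith, by linarith⟩
  obtain ⟨z, _, hz2⟩ := intermediate_value_uIcc (h.ph_cont.continuousOn) hmem
  have := h.logc z
  rw [hz2, hx1z', abs_zero, mul_zero, abs_neg] at this
  have h3 : 0 < |x1| := abs_pos.2 hx1ne
  nlinarith

end Weak
end Pool.Agent.Helper685.FE
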