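import Mathlib
import Pool.Agent.Helper685.FE.Weak

set_option autoImplicit false

namespace Pool.Agent.Helper685.FE

namespace Weak
variable {f : ℝ → ℝ}

/-- strictness assumption -/
def Strict (f : ℝ → ℝ) : Prop := ∀ y, y ≠ 0 → ph f y ≠ 0

lemma ph_neg (h : Weak f) (hs : Strict f) {x : ℝ} (hx : 0 < x) : ph f x < 0 := by
  have h1 : ph f x ≤ 0 := by unfold ph; linarith [h.neg x hx.le]
  exact lt_of_le_of_ne h1 (hs x hx.ne')

lemma ph_pos (h : Weak f) (hs : Strict f) {x : ℝ} (hx : x < 0) : 0 < ph f x := by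
  have h1 : 0 ≤ ph f x := by unfold ph; linarith [h.pos x hx.le]
  exact lt_of_le_of_ne h1 (hs x hx.ne).symm

lemma f_neg (h : Weak f) {x : ℝ} (hx : 0 < x) : f x < 0 := by linarith [h.neg x hx.le]

lemma f_pos (h : Weak f) {x : ℝ} (hx : x < 0) : 0 < f x := by linarith [h.pos x hx.le]

lemma ph_even (h : Weak f) (hs : Strict f) (k : ℕ) {x : ℝ} (hx : 0 < x) : 0 < (ph f)^[2 * k] x := by
  induction k with
  | zero => simpa using hx
  | succ k ih =>
    rw [show 2 * (k + 1) = 2 * k + 1 + 1 by ring, Function.iterate_succ_apply',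
      Function.iterate_succ_apply']
    exact h.ph_pos hs (h.ph_neg hs ih)

lemma f_even (h : Weak f) (k : ℕ) {x : ℝ} (hx : 0 < x) : 0 < f^[2 * k] x := by
  induction k with
  | zero => simpa using hx
  | succ k ih =>
    rw [show 2 * (k + 1) = 2 * k + 1 + 1 by ring, Function.iterate_succ_apply',
      Function.iterate_succ_apply']
    exact h.f_pos (h.f_neg ih)

lemma ph_it_ne (hs : Strict f) {x : ℝ} (hx : x ≠ 0) (k : ℕ) : (ph f)^[k] x ≠ 0 := by
  induction k with
  | zero => simpa using hx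
  | succ k ih => rw [Function.iterate_succ_apply']; exact hs _ ih

/-- two-step system on the positive half line -/
lemma sys (h : Weak f) (hs : Strict f) : Sys (Set.Ioi 0) (fun x => ph f (ph f x)) where
  ord := Set.ordConnected_Ioi
  pos := fun x hx => hx
  cont := (h.ph_cont.comp h.ph_cont).continuousOn
  maps := fun x hx => h.ph_pos hs (h.ph_neg hs hx)
  log := by
    intro x hx
    have hx' : 0 < x := hx
    have a1 := h.logc x
    have a2 := h.logc (ph f x)
    have a3 := h.logc (ph f (ph f x))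
    have p1 := h.ph_neg hs hx'
    have p2 := h.ph_pos hs p1
    have p3 := h.ph_neg hs p2
    have p4 := h.ph_pos hs p3
    set v1 := |ph f x| with hv1
    set v3 := |ph f (ph f (ph f x))| with hv3
    have e0 : |x| = x := abs_of_pos hx'
    have e2 : |ph f (ph f x)| = ph f (ph f x) := abs_of_pos p2
    have e4 : |ph f (ph f (ph f (ph f x)))| = ph f (ph f (ph f (ph f x))) := abs_of_pos p4
    rw [e0, e2] at a1
    rw [e2] at a2 a3
    rw [e4] at a3
    set v2 := ph f (ph f x) with hv2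
    set v4 := ph f (ph f (ph f v2)) with hv4
    show v2 ^ 2 ≤ x * ph f (ph f v2)
    -- v1^2 ≤ x v2, v2^2 ≤ v1 v3, v3^2 ≤ v2 v4
    have b1 : 0 < v1 := abs_pos.2 p1.ne
    have b3 : 0 < v3 := abs_pos.2 p3.ne
    have key : v2 ^ 2 * v2 ^ 2 ≤ v2 ^ 2 * (x * ph f (ph f v2)) := by
      calc v2 ^ 2 * v2 ^ 2 ≤ (v1 * v3) * (v1 * v3) := mul_le_mul a2 a2 (sq_nonneg _) (by positivity)
        _ = v1 ^ 2 * v3 ^ 2 := by ring
        _ ≤ (x * v2) * (v2 * ph f (ph f v2)) :=
            mul_le_mul a1 a3 (sq_nonneg _) (by positivity)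
        _ = _ := by ring
    exact le_of_mul_le_mul_left key (by positivity)

lemma two_it (x : ℝ) (i : ℕ) : (fun x => ph f (ph f x))^[i] x = (ph f)^[2 * i] x := by
  induction i with
  | zero => simp
  | succ i ih =>
    rw [Function.iterate_succ_apply', ih, show 2 * (i + 1) = 2 * i + 1 + 1 by ring,
      Function.iterate_succ_apply', Function.iterate_succ_apply']

/-- slowness in absolute values -/
def SlowP (f : ℝ → ℝ) (β x : ℝ) : Prop := ∀ i : ℕ, |(ph f)^[i + 2] x| ≤ β * |(ph f)^[i] x|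

lemma slowP_of_slow (h : Weak f) (hs : Strict f) {β x : ℝ} (hx : 0 < x)
    (hsl : Slow (fun x => ph f (ph f x)) β x) : SlowP f β x := by
  have hev : ∀ i, |(ph f)^[2 * i + 2] x| ≤ β * |(ph f)^[2 * i] x| := by
    intro i
    have := hsl i
    rw [two_it, two_it] at this
    rw [show 2 * i + 2 = 2 * (i + 1) by ring, abs_of_pos (h.ph_even hs (i + 1) hx),
      abs_of_pos (h.ph_even hs i hx)]
    exact this
  intro i
  rcases Nat.even_or_odd' i with ⟨k, hk | hk⟩
  · subst hk; exact hev k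
  · subst hk
    -- i = 2k+1
    have a := hev (k + 1)
    rw [show 2 * (k + 1) + 2 = 2 * k + 4 by ring, show 2 * (k + 1) = 2 * k + 2 by ring] at a
    set z := (ph f)^[2 * k] x with hz
    have n1 : 0 < |(ph f)^[2 * k + 1] x| := abs_pos.2 (ph_it_ne hs hx.ne' _)
    have n2 : 0 < |(ph f)^[2 * k + 2] x| := abs_pos.2 (ph_it_ne hs hx.ne' _)
    have n3 : 0 < |(ph f)^[2 * k + 3] x| := abs_pos.2 (ph_it_ne hs hx.ne' _)
    have l1 := h.logc ((ph f)^[2 * k + 1] x)
    have l2 := h.logc ((ph f)^[2 * k + 2] x)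
    simp only [← Function.iterate_succ_apply' (ph f)] at l1 l2
    -- l1 : v2^2 ≤ v1 v3 ; l2 : v3^2 ≤ v2 v4 ; a : v4 ≤ β v2 ; goal v3 ≤ β v1
    show |(ph f)^[2 * k + 1 + 2] x| ≤ β * |(ph f)^[2 * k + 1] x|
    rw [show 2 * k + 1 + 2 = 2 * k + 3 by ring]
    set v1 := |(ph f)^[2 * k + 1] x|
    set v2 := |(ph f)^[2 * k + 2] x|
    set v3 := |(ph f)^[2 * k + 3] x|
    have l1' : v2 ^ 2 ≤ v1 * v3 := l1
    have l2' : v3 ^ 2 ≤ v2 * |(ph f)^[2 * k + 4] x| := l2
    have c1 : v3 ^ 2 ≤ β * v2 ^ 2 := by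
      calc v3 ^ 2 ≤ v2 * |(ph f)^[2 * k + 4] x| := l2'
        _ ≤ v2 * (β * v2) := mul_le_mul_of_nonneg_left a n2.le
        _ = β * v2 ^ 2 := by ring
    have hβ : 0 ≤ β := by
      by_contra hneg
      push Not at hneg
      have : 0 < v3 ^ 2 := by positivity
      nlinarith [sq_nonneg v2]
    have c2 : v3 * v3 ≤ (β * v1) * v3 := by
      calc v3 * v3 = v3 ^ 2 := by ring
        _ ≤ β * v2 ^ 2 := c1
        _ ≤ β * (v1 * v3) := mul_le_mul_of_nonneg_left l1' hβ
        _ = _ := by ring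
    exact le_of_mul_le_mul_right c2 n3

lemma slow_of_slowP (h : Weak f) (hs : Strict f) {β x : ℝ} (hx : 0 < x) (hsl : SlowP f β x) :
    Slow (fun x => ph f (ph f x)) β x := by
  intro i
  rw [two_it, two_it]
  have := hsl (2 * i)
  rw [show 2 * i + 2 = 2 * (i + 1) by ring, abs_of_pos (h.ph_even hs (i + 1) hx),
      abs_of_pos (h.ph_even hs i hx)] at this
  exact this

lemma slowP_f (h : Weak f) {β x : ℝ} (hsl : SlowP f β x) : SlowP f β (f x) := by
  intro i
  rw [← h.comm_f, ← h.comm_f, h.abs_f, h.abs_f, ← Function.iterate_succ_apply' (ph f),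
    ← Function.iterate_succ_apply' (ph f)]
  have a := hsl i
  have b := hsl (i + 1)
  rw [show i + 1 + 2 = i + 2 + 1 by ring] at b
  linarith

lemma slowP_it (h : Weak f) {β x : ℝ} (hsl : SlowP f β x) (n : ℕ) : SlowP f β (f^[n] x) := by
  induction n with
  | zero => simpa using hsl
  | succ n ih => rw [Function.iterate_succ_apply']; exact h.slowP_f ih

/-- all points are slow as soon as one is -/
lemma all_slow (h : Weak f) (hs : Strict f) {β x y : ℝ} (hβ : 0 ≤ β) (hx : 0 < x) (hy : 0 < y)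
    (hsl : Slow (fun x => ph f (ph f x)) β x) : ph f (ph f y) ≤ β * y := by
  refine (h.sys hs).all_slow_of_unbounded (x := x) (y := y) hx hy hβ hsl ?_
  intro T
  have hp : 0 < |ph f x| := abs_pos.2 (hs x hx.ne')
  obtain ⟨n, hn⟩ := exists_nat_gt (T / |ph f x|)
  have hg := h.growth x (2 * n)
  rw [div_lt_iff₀ hp] at hn
  refine ⟨f^[2 * n] x, ?_, ?_⟩
  · rw [abs_of_pos (h.f_even n hx), abs_of_pos hx] at hg
    push_cast at hg
    have : 0 ≤ (n : ℝ) := Nat.cast_nonneg n
    nlinarith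
  · exact h.slow_of_slowP hs (h.f_even n hx) (h.slowP_it (h.slowP_of_slow hs hx hsl) _)

/-- lower ratio bound -/
def Low (f : ℝ → ℝ) (s w : ℝ) : Prop := ∀ i : ℕ, s * |(ph f)^[i] w| ≤ |(ph f)^[i + 1] w|

lemma low_f (h : Weak f) {s w : ℝ} (hl : Low f s w) : Low f s (f w) := by
  intro i
  rw [← h.comm_f, ← h.comm_f, h.abs_f, h.abs_f, ← Function.iterate_succ_apply' (ph f),
    ← Function.iterate_succ_apply' (ph f)]
  have a := hl i
  have b := hl (i + 1)
  linarith

lemma low_ph {s w : ℝ} (hl : Low f s w) : Low f s (ph f w) := by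
  intro i
  rw [← Function.iterate_succ_apply (ph f), ← Function.iterate_succ_apply (ph f)]
  exact hl (i + 1)

lemma low_ph_it {s w : ℝ} (hl : Low f s w) (n : ℕ) : Low f s ((ph f)^[n] w) := by
  induction n with
  | zero => simpa using hl
  | succ n ih => rw [Function.iterate_succ_apply']; exact low_ph ih

lemma low_a (h : Weak f) {s : ℝ} (hs : 0 ≤ s) (n : ℕ) : ∀ w, Low f s w →
    (1 + s) ^ n * |w| ≤ |f^[n] w| := by
  induction n with
  | zero => intro w _; simp
  | succ n ih =>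
    intro w hl
    rw [Function.iterate_succ_apply]
    have h1 := ih (f w) (h.low_f hl)
    have h2 := hl 0
    simp only [Function.iterate_zero, id_eq, zero_add, Function.iterate_one] at h2
    calc (1 + s) ^ (n + 1) * |w| = (1 + s) ^ n * (|w| + s * |w|) := by ring
      _ ≤ (1 + s) ^ n * (|w| + |ph f w|) := by
          apply mul_le_mul_of_nonneg_left _ (by positivity)
          linarith
      _ = (1 + s) ^ n * |f w| := by rw [h.abs_f]
      _ ≤ _ := h1

lemma low_b (h : Weak f) {s : ℝ} (hs : 0 ≤ s) (m : ℕ) : ∀ w, Low f s w →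
    s ^ m * |f^[m] w| ≤ (1 + s) ^ m * |(ph f)^[m] w| := by
  induction m with
  | zero => intro w _; simp
  | succ m ih =>
    intro w hl
    have h1 := ih (ph f w) (low_ph hl)
    rw [← Function.iterate_succ_apply (ph f)] at h1
    -- |f^(m+1) w| = |f^m w| + |f^m (ph w)|
    have e : |f^[m + 1] w| = |f^[m] w| + |f^[m] (ph f w)| := by
      rw [Function.iterate_succ_apply', h.abs_f, ← h.comm_p]
    have hlm : Low f s (f^[m] w) := by
      clear h1 e ih
      induction m with
      | zero => simpa using hl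
      | succ m ih => rw [Function.iterate_succ_apply']; exact h.low_f ih
    have h2 := hlm 0
    simp only [Function.iterate_zero, id_eq, zero_add, Function.iterate_one] at h2
    rw [← h.comm_p] at h2
    calc s ^ (m + 1) * |f^[m + 1] w| = s ^ m * (s * |f^[m] w| + s * |f^[m] (ph f w)|) := by
          rw [e]; ring
      _ ≤ s ^ m * (|f^[m] (ph f w)| + s * |f^[m] (ph f w)|) := by
          apply mul_le_mul_of_nonneg_left _ (by positivity)
          linarith
      _ = (1 + s) * (s ^ m * |f^[m] (ph f w)|) := by ring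
      _ ≤ (1 + s) * ((1 + s) ^ m * |(ph f)^[m + 1] w|) :=
          mul_le_mul_of_nonneg_left h1 (by positivity)
      _ = _ := by ring

lemma low_cmp (h : Weak f) {s : ℝ} (hs : 0 < s) (m n : ℕ) (w : ℝ) (hw : w ≠ 0) (hl : Low f s w)
    (hmn : (1 + s) ^ m < s ^ m * (1 + s) ^ n) : |f^[m] w| < |(ph f)^[m] (f^[n] w)| := by
  have h1 := h.low_a hs.le n ((ph f)^[m] w) (low_ph_it hl m)
  have h2 := h.low_b hs.le m w hl
  rw [h.comm_it] at h1
  have hfm : 0 < |f^[m] w| := lt_of_lt_of_le (abs_pos.2 hw) (h.abs_le_it m w)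
  have h3 : (1 + s) ^ m * |f^[m] w| < (1 + s) ^ m * |(ph f)^[m] (f^[n] w)| := by
    calc (1 + s) ^ m * |f^[m] w| < (s ^ m * (1 + s) ^ n) * |f^[m] w| :=
          mul_lt_mul_of_pos_right hmn hfm
      _ = (1 + s) ^ n * (s ^ m * |f^[m] w|) := by ring
      _ ≤ (1 + s) ^ n * ((1 + s) ^ m * |(ph f)^[m] w|) :=
          mul_le_mul_of_nonneg_left h2 (by positivity)
      _ = (1 + s) ^ m * ((1 + s) ^ n * |(ph f)^[m] w|) := by ring
      _ ≤ _ := mul_le_mul_of_nonneg_left h1 (by positivity)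
  exact lt_of_mul_lt_mul_left h3 (by positivity)

/-- upper ratio bound on a finite stretch -/
def Upp (f : ℝ → ℝ) (L : ℕ) (s w : ℝ) : Prop := ∀ i : ℕ, i < L →
  |(ph f)^[i + 1] w| ≤ s * |(ph f)^[i] w|

lemma upp_f (h : Weak f) {L : ℕ} {s w : ℝ} (hl : Upp f (L + 1) s w) : Upp f L s (f w) := by
  intro i hi
  rw [← h.comm_f, ← h.comm_f, h.abs_f, h.abs_f, ← Function.iterate_succ_apply' (ph f),
    ← Function.iterate_succ_apply' (ph f)]
  have a := hl i (by omega)
  have b := hl (i + 1) (by omega)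
  linarith

lemma upp_ph {L : ℕ} {s w : ℝ} (hl : Upp f (L + 1) s w) : Upp f L s (ph f w) := by
  intro i hi
  rw [← Function.iterate_succ_apply (ph f), ← Function.iterate_succ_apply (ph f)]
  exact hl (i + 1) (by omega)

lemma upp_mono {L L' : ℕ} {s w : ℝ} (hL : L' ≤ L) (hl : Upp f L s w) : Upp f L' s w :=
  fun i hi => hl i (by omega)

lemma upp_ph_it {L : ℕ} {s : ℝ} (n : ℕ) : ∀ {w : ℝ}, Upp f (L + n) s w →
    Upp f L s ((ph f)^[n] w) := by
  induction n with
  | zero => intro w hl; simpa using hl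
  | succ n ih =>
    intro w hl
    rw [Function.iterate_succ_apply]
    exact ih (upp_ph hl)

lemma upp_f_it (h : Weak f) {L : ℕ} {s : ℝ} (n : ℕ) : ∀ {w : ℝ}, Upp f (L + n) s w →
    Upp f L s (f^[n] w) := by
  induction n with
  | zero => intro w hl; simpa using hl
  | succ n ih =>
    intro w hl
    rw [Function.iterate_succ_apply]
    exact ih (h.upp_f hl)

lemma upp_a (h : Weak f) {s : ℝ} (hs : 0 ≤ s) (n : ℕ) : ∀ w, Upp f n s w →
    |f^[n] w| ≤ (1 + s) ^ n * |w| := by
  induction n with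
  | zero => intro w _; simp
  | succ n ih =>
    intro w hl
    rw [Function.iterate_succ_apply]
    have h1 := ih (f w) (h.upp_f hl)
    have h2 := hl 0 (by omega)
    simp only [Function.iterate_zero, id_eq, zero_add, Function.iterate_one] at h2
    calc |f^[n] (f w)| ≤ (1 + s) ^ n * |f w| := h1
      _ = (1 + s) ^ n * (|w| + |ph f w|) := by rw [h.abs_f]
      _ ≤ (1 + s) ^ n * (|w| + s * |w|) := by
          apply mul_le_mul_of_nonneg_left _ (by positivity)
          linarith
      _ = _ := by ring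

lemma upp_b (h : Weak f) {s : ℝ} (hs : 0 ≤ s) (m : ℕ) : ∀ w, Upp f m s w →
    (1 + s) ^ m * |(ph f)^[m] w| ≤ s ^ m * |f^[m] w| := by
  induction m with
  | zero => intro w _; simp
  | succ m ih =>
    intro w hl
    have h1 := ih (ph f w) (upp_ph hl)
    rw [← Function.iterate_succ_apply (ph f)] at h1
    have e : |f^[m + 1] w| = |f^[m] w| + |f^[m] (ph f w)| := by
      rw [Function.iterate_succ_apply', h.abs_f, ← h.comm_p]
    have hlm : Upp f 1 s (f^[m] w) := h.upp_f_it m (by rwa [Nat.add_comm] at hl)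
    have h2 := hlm 0 (by omega)
    simp only [Function.iterate_zero, id_eq, zero_add, Function.iterate_one] at h2
    rw [← h.comm_p] at h2
    calc (1 + s) ^ (m + 1) * |(ph f)^[m + 1] w|
        = (1 + s) * ((1 + s) ^ m * |(ph f)^[m + 1] w|) := by ring
      _ ≤ (1 + s) * (s ^ m * |f^[m] (ph f w)|) := mul_le_mul_of_nonneg_left h1 (by positivity)
      _ = s ^ m * (|f^[m] (ph f w)| + s * |f^[m] (ph f w)|) := by ring
      _ ≤ s ^ m * (s * |f^[m] w| + s * |f^[m] (ph f w)|) := by
          apply mul_le_mul_of_nonneg_left _ (by positivity)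
          linarith
      _ = _ := by rw [e]; ring

lemma upp_cmp (h : Weak f) {s : ℝ} (hs : 0 < s) (m n : ℕ) (w : ℝ) (hw : w ≠ 0)
    (hl : Upp f (m + n) s w)
    (hmn : s ^ m * (1 + s) ^ n < (1 + s) ^ m) : |(ph f)^[m] (f^[n] w)| < |f^[m] w| := by
  have h1 := h.upp_a hs.le n ((ph f)^[m] w) (upp_ph_it m (by rwa [Nat.add_comm] at hl))
  have h2 := h.upp_b hs.le m w (upp_mono (by omega) hl)
  rw [h.comm_it] at h1
  have hfm : 0 < |f^[m] w| := lt_of_lt_of_le (abs_pos.2 hw) (h.abs_le_it m w)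
  have h3 : (1 + s) ^ m * |(ph f)^[m] (f^[n] w)| < (1 + s) ^ m * |f^[m] w| := by
    calc (1 + s) ^ m * |(ph f)^[m] (f^[n] w)|
        ≤ (1 + s) ^ m * ((1 + s) ^ n * |(ph f)^[m] w|) :=
          mul_le_mul_of_nonneg_left h1 (by positivity)
      _ = (1 + s) ^ n * ((1 + s) ^ m * |(ph f)^[m] w|) := by ring
      _ ≤ (1 + s) ^ n * (s ^ m * |f^[m] w|) := mul_le_mul_of_nonneg_left h2 (by positivity)
      _ = (s ^ m * (1 + s) ^ n) * |f^[m] w| := by ring
      _ < _ := mul_lt_mul_of_pos_right hmn hfm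
  exact lt_of_mul_lt_mul_left h3 (by positivity)

/-- `ph f` is onto -/
lemma ph_surj (h : Weak f) (hs : Strict f) : Function.Surjective (ph f) := by
  intro t
  have hy2 : ph f (ph f 1) ≠ 0 := hs _ (hs _ one_ne_zero)
  -- find even n with large value, then also n+1
  have hp : 0 < |ph f (ph f 1)| := abs_pos.2 hy2
  obtain ⟨n, hn⟩ := exists_nat_ge (|t| / |ph f (ph f 1)|)
  rw [div_le_iff₀ hp] at hn
  have hA : |t| ≤ |ph f (f^[2 * n] 1)| := by
    rw [← h.comm_p]
    have := h.growth (ph f 1) (2 * n)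
    push_cast at this
    have hn0 : (0 : ℝ) ≤ n := Nat.cast_nonneg n
    nlinarith [abs_nonneg (ph f 1)]
  have hB : |t| ≤ |ph f (f (f^[2 * n] 1))| := by
    rw [← h.comm_apply]
    exact hA.trans (h.abs_le_f _)
  have hpos : 0 < f^[2 * n] 1 := h.f_even n one_pos
  have hneg : f (f^[2 * n] 1) < 0 := h.f_neg hpos
  rw [abs_of_neg (h.ph_neg hs hpos)] at hA
  rw [abs_of_pos (h.ph_pos hs hneg)] at hB
  have hmem : t ∈ Set.uIcc (ph f (f^[2 * n] 1)) (ph f (f (f^[2 * n] 1))) := by
    rw [Set.mem_uIcc]; left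
    constructor
    · linarith [neg_abs_le t]
    · linarith [le_abs_self t]
  obtain ⟨z, _, hz⟩ := intermediate_value_uIcc (h.ph_cont.continuousOn) hmem
  exact ⟨z, hz⟩

lemma ph_it_surj (h : Weak f) (hs : Strict f) (n : ℕ) : Function.Surjective ((ph f)^[n]) :=
  (h.ph_surj hs).iterate n

/-- positive preimages of high order with small ratios -/
lemma exists_upp (h : Weak f) (hs : Strict f) {x0 s : ℝ} (hx0 : x0 ≠ 0) (hr : |ph f x0| ≤ s * |x0|)
    (L : ℕ) : ∃ w, 0 < w ∧ Upp f L s w := by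
  have main : ∀ k w, w ≠ 0 → (ph f)^[k] w = x0 → Upp f k s w := by
    intro k w hw hwk i hi
    have hz : (ph f)^[i] w ≠ 0 := ph_it_ne hs hw i
    have hra := h.ratio1 ((ph f)^[i] w) (k - i) hs hz
    have e1 : (ph f)^[k - i] ((ph f)^[i] w) = x0 := by
      rw [← Function.iterate_add_apply, show k - i + i = k by omega, hwk]
    have e2 : (ph f)^[k - i + 1] ((ph f)^[i] w) = ph f x0 := by
      rw [Function.iterate_succ_apply', e1]
    rw [e1, e2, ← Function.iterate_succ_apply' (ph f)] at hra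
    have hx0p : 0 < |x0| := abs_pos.2 hx0
    have : |(ph f)^[i + 1] w| * |x0| ≤ (s * |(ph f)^[i] w|) * |x0| := by
      calc _ ≤ |(ph f)^[i] w| * |ph f x0| := hra
        _ ≤ |(ph f)^[i] w| * (s * |x0|) := mul_le_mul_of_nonneg_left hr (abs_nonneg _)
        _ = _ := by ring
    exact le_of_mul_le_mul_right this hx0p
  obtain ⟨w, hw⟩ := h.ph_it_surj hs L x0
  have hw0 : w ≠ 0 := by
    intro h0
    rw [h0] at hw
    have : (ph f)^[L] 0 = 0 := Function.iterate_fixed h.ph_zero L
    rw [this] at hw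
    exact hx0 hw.symm
  rcases lt_or_gt_of_ne hw0 with hneg | hpos
  · obtain ⟨w', hw'⟩ := h.ph_surj hs w
    have hw'0 : w' ≠ 0 := by
      intro h0; rw [h0, h.ph_zero] at hw'; exact hw0 hw'.symm
    have hw'pos : 0 < w' := by
      by_contra hc
      push Not at hc
      have : w' < 0 := lt_of_le_of_ne hc hw'0
      have := h.ph_pos hs this
      rw [hw'] at this
      linarith
    refine ⟨w', hw'pos, upp_mono (Nat.le_succ L) (main (L + 1) w' hw'0 ?_)⟩
    rw [Function.iterate_succ_apply, hw', hw]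
  · exact ⟨w, hpos, main L w hw0 hw⟩

lemma low_of_ratio (h : Weak f) (hs : Strict f) {y s : ℝ} (hy : y ≠ 0)
    (hr : s * |y| ≤ |ph f y|) : Low f s y := by
  intro i
  have hra := h.ratio1 y i hs hy
  have hyp : 0 < |y| := abs_pos.2 hy
  have : |y| * (s * |(ph f)^[i] y|) ≤ |y| * |(ph f)^[i + 1] y| := by
    calc |y| * (s * |(ph f)^[i] y|) = (s * |y|) * |(ph f)^[i] y| := by ring
      _ ≤ |ph f y| * |(ph f)^[i] y| := mul_le_mul_of_nonneg_right hr (abs_nonneg _)
      _ ≤ _ := hra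
  exact le_of_mul_le_mul_left this hyp

/-- ratios cannot differ -/
lemma no_gap (h : Weak f) (hs : Strict f) {x0 y0 : ℝ} (hx0 : x0 ≠ 0) (hy0 : y0 ≠ 0) :
    |ph f y0| / |y0| ≤ |ph f x0| / |x0| := by
  by_contra hcon
  push Not at hcon
  have hxp : 0 < |x0| := abs_pos.2 hx0
  have hyp : 0 < |y0| := abs_pos.2 hy0
  set a := |ph f x0| / |x0| with ha
  set b := |ph f y0| / |y0| with hb
  have ha0 : 0 < a := div_pos (abs_pos.2 (hs x0 hx0)) hxp
  have hxr : |ph f x0| ≤ a * |x0| := by rw [ha]; field_simp; exact le_refl _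
  have hyr : b * |y0| ≤ |ph f y0| := by rw [hb]; field_simp; exact le_refl _
  clear_value a b
  obtain ⟨c, hac, hcb⟩ := exists_between hcon
  have hc0 : 0 < c := ha0.trans hac
  have hb0 : 0 < b := hc0.trans hcb
  -- numeric separation
  have hp1 : 0 < a / (1 + a) := by positivity
  have hp12 : a / (1 + a) < c / (1 + c) := by
    rw [div_lt_div_iff₀ (by linarith) (by linarith)]; nlinarith
  have hp2 : c / (1 + c) < 1 := by rw [div_lt_one (by linarith)]; linarith
  obtain ⟨m, n, hm0, hn0, hme, hne, hs1, hs2⟩ := separate _ _ hp1 hp12 hp2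
  have t1 : a ^ m * (1 + a) ^ n < (1 + a) ^ m := by
    have e : 1 - a / (1 + a) = 1 / (1 + a) := by field_simp; ring
    rw [e, div_pow, div_pow, one_pow, div_lt_div_iff₀ (by positivity) (by positivity)] at hs1
    linarith
  have t2 : (1 + c) ^ m < c ^ m * (1 + c) ^ n := by
    have e : 1 - c / (1 + c) = 1 / (1 + c) := by field_simp; ring
    rw [e, div_pow, div_pow, one_pow, div_lt_div_iff₀ (by positivity) (by positivity)] at hs2
    linarith
  -- small point
  obtain ⟨x', hx'pos, hx'u⟩ := h.exists_upp hs hx0 hxr (m + n)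
  have hx'lt := h.upp_cmp ha0 m n x' hx'pos.ne' hx'u t1
  -- large point
  have hylow : Low f b y0 := h.low_of_ratio hs hy0 hyr
  obtain ⟨y', hy'pos, hy'low⟩ : ∃ y', 0 < y' ∧ Low f b y' := by
    rcases lt_or_gt_of_ne hy0 with hneg | hpos
    · exact ⟨ph f y0, h.ph_pos hs hneg, low_ph hylow⟩
    · exact ⟨y0, hpos, hylow⟩
  have hy'lowc : Low f c y' := fun i =>
    (mul_le_mul_of_nonneg_right hcb.le (abs_nonneg _)).trans (hy'low i)
  have hy'lt := h.low_cmp hc0 m n y' hy'pos.ne' hy'lowc t2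
  -- intermediate value
  obtain ⟨m', rfl⟩ : ∃ m', m = 2 * m' := by
    obtain ⟨r, hr⟩ := hme; exact ⟨r, by omega⟩
  obtain ⟨n', rfl⟩ : ∃ n', n = 2 * n' := by
    obtain ⟨r, hr⟩ := hne; exact ⟨r, by omega⟩
  have signs : ∀ x, 0 < x → 0 < (ph f)^[2 * m'] (f^[2 * n'] x) ∧ 0 < f^[2 * m'] x := fun x hx =>
    ⟨h.ph_even hs m' (h.f_even n' hx), h.f_even m' hx⟩
  rw [abs_of_pos (signs x' hx'pos).1, abs_of_pos (signs x' hx'pos).2] at hx'lt
  rw [abs_of_pos (signs y' hy'pos).1, abs_of_pos (signs y' hy'pos).2] at hy'lt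
  set D : ℝ → ℝ := fun x => (ph f)^[2 * m'] (f^[2 * n'] x) - f^[2 * m'] x with hD
  have hDc : Continuous D :=
    ((h.ph_cont.iterate _).comp (h.cont.iterate _)).sub (h.cont.iterate _)
  have hmem : (0 : ℝ) ∈ Set.uIcc (D x') (D y') := by
    rw [Set.mem_uIcc]; left
    constructor
    · simp only [hD]; linarith
    · simp only [hD]; linarith
  obtain ⟨z, hz, hz0⟩ := intermediate_value_uIcc hDc.continuousOn hmem
  have hzpos : 0 < z := by
    rcases Set.mem_uIcc.1 hz with h1 | h1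
    · exact lt_of_lt_of_le hx'pos h1.1
    · exact lt_of_lt_of_le hy'pos h1.1
  have heq : (ph f)^[2 * m'] (f^[2 * n'] z) = f^[2 * m'] z := by
    simp only [hD] at hz0; linarith
  -- some forward point of z is fast
  have hfast : ∃ i : ℕ, c ^ 2 * (ph f)^[2 * i] z < (ph f)^[2 * i + 2] z := by
    by_contra hno
    push Not at hno
    have hsl : Slow (fun x => ph f (ph f x)) (c ^ 2) z := by
      intro i
      rw [two_it, two_it, show 2 * (i + 1) = 2 * i + 2 by ring]
      exact hno i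
    have hall := h.all_slow hs (sq_nonneg c) hzpos hy'pos hsl
    have l0 := hy'low 0
    have l1 := hy'low 1
    simp only [Function.iterate_zero, id_eq, zero_add, Function.iterate_one] at l0 l1
    rw [show (1 : ℕ) + 1 = 2 by rfl] at l1
    have e2 : (ph f)^[2] y' = ph f (ph f y') := rfl
    rw [e2, abs_of_pos (h.ph_pos hs (h.ph_neg hs hy'pos))] at l1
    rw [abs_of_pos hy'pos] at l0
    have : b * (b * y') ≤ c ^ 2 * y' :=
      (mul_le_mul_of_nonneg_left l0 hb0.le).trans (l1.trans hall)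
    have hlt : c ^ 2 * y' < b * (b * y') := by
      have : c ^ 2 < b ^ 2 := by
        apply pow_lt_pow_left₀ hcb hc0.le (by norm_num)
      nlinarith
    linarith
  obtain ⟨i, hi⟩ := hfast
  set v := (ph f)^[2 * i] z with hv
  have hvpos : 0 < v := h.ph_even hs i hzpos
  have e3 : (ph f)^[2 * i + 2] z = ph f (ph f v) := by
    rw [show 2 * i + 2 = 2 * i + 1 + 1 by ring, Function.iterate_succ_apply',
      Function.iterate_succ_apply']
  rw [e3] at hi
  -- ratio at u = ph v
  set u := ph f v with hu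
  have hune : u ≠ 0 := hs v hvpos.ne'
  have hur : c * |u| ≤ |ph f u| := by
    by_contra hlt
    push Not at hlt
    have hlc := h.logc v
    rw [← hu] at hlc
    have hup : 0 < |u| := abs_pos.2 hune
    have hvv : |v| = v := abs_of_pos hvpos
    rw [hvv] at hlc
    have hpu : |ph f u| = ph f u := abs_of_pos (h.ph_pos hs (h.ph_neg hs hvpos))
    rw [hpu] at hlt hlc
    -- |u|^2 ≤ v * ph u , ph u < c |u| , c^2 v < ph u
    have k1 : |u| * |u| < (c * v) * |u| := by
      calc |u| * |u| = |u| ^ 2 := by ring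
        _ ≤ v * ph f u := hlc
        _ < v * (c * |u|) := mul_lt_mul_of_pos_left hlt hvpos
        _ = _ := by ring
    have k2 : |u| < c * v := lt_of_mul_lt_mul_right k1 hup.le
    have k3 : ph f u < c * (c * v) := hlt.trans (mul_lt_mul_of_pos_left k2 hc0)
    nlinarith
  have hulow : Low f c u := h.low_of_ratio hs hune hur
  have hcmp := h.low_cmp hc0 (2 * m') (2 * n') u hune hulow t2
  have hueq : (ph f)^[2 * m'] (f^[2 * n'] u) = f^[2 * m'] u := by
    have e4 : u = (ph f)^[2 * i + 1] z := by rw [Function.iterate_succ_apply']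
    rw [e4, h.comm_it, h.comm_it, ← Function.iterate_add_apply, Nat.add_comm,
      Function.iterate_add_apply, heq]
  rw [hueq] at hcmp
  exact lt_irrefl _ hcmp

/-- main theorem in the expanding regime -/
theorem linear (h : Weak f) : ∃ q : ℝ, 0 ≤ q ∧ ∀ x, f x = -(1 + q) * x := by
  by_cases hz : ∃ x0, x0 ≠ 0 ∧ ph f x0 = 0
  · obtain ⟨x0, hx0, hz0⟩ := hz
    refine ⟨0, le_refl _, fun x => ?_⟩
    have := h.dichotomy hx0 hz0 x
    unfold ph at this
    linarith
  · have hs : Strict f := by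
      intro y hy h0
      exact hz ⟨y, hy, h0⟩
    refine ⟨|ph f 1|, abs_nonneg _, fun x => ?_⟩
    rcases eq_or_ne x 0 with rfl | hx
    · simp [h.zero]
    have e : |ph f x| / |x| = |ph f 1| / |(1 : ℝ)| :=
      le_antisymm (h.no_gap hs one_ne_zero hx) (h.no_gap hs hx one_ne_zero)
    rw [abs_one, div_one, div_eq_iff (abs_pos.2 hx).ne'] at e
    rcases lt_or_gt_of_ne hx with hneg | hpos
    · rw [abs_of_pos (h.ph_pos hs hneg), abs_of_neg hneg] at e
      unfold ph at e ⊢
      linarith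
    · rw [abs_of_neg (h.ph_neg hs hpos), abs_of_pos hpos] at e
      unfold ph at e ⊢
      linarith

end Weak
end Pool.Agent.Helper685.FE
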