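import Mathlib
import Pool.Agent.Helper685.FE.Thm2

set_option autoImplicit false

namespace Pool.Agent.Helper685.FE

namespace Sol
variable {f : ℝ → ℝ}

/-- reflected solution -/
def mir (f : ℝ → ℝ) : ℝ → ℝ := fun x => -f (-x)

lemma mirror (h : Sol f) : Sol (mir f) where
  cont := (h.cont.comp continuous_neg).neg
  eq := by
    intro x
    unfold mir
    have := h.eq (-x)
    have e : -(x + -f (-x)) = -x + f (-x) := by ring
    rw [e, this, neg_neg]; ring

lemma ph_mir (x : ℝ) : ph (mir f) x = -ph f (-x) := by unfold ph mir; ring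

/-- nonnegative on the right half line implies linear there -/
theorem half (h : Sol f) (hn : ∀ x, 0 ≤ x → 0 ≤ f x) :
    ∃ b : ℝ, 0 ≤ b ∧ ∀ x, 0 ≤ x → f x = b * x := by
  set g : ℝ → ℝ := fun x => f (max x 0) - f (max (-x) 0) with hg
  have gpos : ∀ x, 0 ≤ x → g x = f x := by
    intro x hx
    simp only [hg]
    rw [max_eq_left hx, max_eq_right (by linarith), h.zero, sub_zero]
  have gneg : ∀ x, g (-x) = -g x := by
    intro x
    simp only [hg, neg_neg]; ring
  have geq : ∀ x, g (x + g x) = g x + g (g x) := by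
    have pos : ∀ x, 0 ≤ x → g (x + g x) = g x + g (g x) := by
      intro x hx
      have hfx := hn x hx
      rw [gpos x hx, gpos (x + f x) (by linarith), gpos (f x) hfx]
      exact h.eq x
    intro x
    rcases le_total 0 x with hx | hx
    · exact pos x hx
    · have := pos (-x) (by linarith)
      rw [gneg x, gneg (g x)] at this
      have e : -x + -g x = -(x + g x) := by ring
      rw [e, gneg] at this
      linarith
  have W : Weak (fun x => -(x + g x)) := by
    refine { cont := ?_, eq := ?_, neg := ?_, pos := ?_ }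
    · have : Continuous g := by
        have := h.cont
        fun_prop
      fun_prop
    · intro x
      have e1 : x + -(x + g x) = -g x := by ring
      show -(x + -(x + g x) + g (x + -(x + g x))) =
        -(x + g x) + -(-(x + g x) + g (-(x + g x)))
      rw [e1, gneg, gneg, geq x]; ring
    · intro x hx
      have := hn x hx
      show -(x + g x) ≤ -x
      rw [gpos x hx]; linarith
    · intro x hx
      have := hn (-x) (by linarith)
      show -x ≤ -(x + g x)
      have e : g x = -f (-x) := by
        rw [← neg_neg x, gneg, gpos (-x) (by linarith), neg_neg]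
      rw [e]; linarith
  obtain ⟨q, hq, hl⟩ := W.linear
  refine ⟨q, hq, fun x hx => ?_⟩
  have := hl x
  rw [gpos x hx] at this
  linarith

theorem half' (h : Sol f) (hn : ∀ x, x ≤ 0 → f x ≤ 0) :
    ∃ b : ℝ, 0 ≤ b ∧ ∀ x, x ≤ 0 → f x = b * x := by
  obtain ⟨b, hb, hl⟩ := h.mirror.half (fun x hx => by
    unfold mir; linarith [hn (-x) (by linarith)])
  refine ⟨b, hb, fun x hx => ?_⟩
  have := hl (-x) (by linarith)
  unfold mir at this
  rw [neg_neg] at this
  linarith

/-- a positive slope on the left forces nonnegativity on the right -/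
lemma slope_left (h : Sol f) {b : ℝ} (hb : 0 < b) (hl : ∀ x, x ≤ 0 → f x = b * x) :
    ∀ x, 0 ≤ x → 0 ≤ f x := by
  intro x hx
  by_contra hneg
  push Not at hneg
  set s := f x with hs
  have hps : ∀ n : ℕ, (ph f)^[n] s = (1 + b) ^ n * s := by
    intro n
    induction n with
    | zero => simp
    | succ n ih =>
      rw [Function.iterate_succ_apply', ih]
      have hle : (1 + b) ^ n * s ≤ 0 := mul_nonpos_of_nonneg_of_nonpos (by positivity) hneg.le
      unfold ph
      rw [hl _ hle]; ring
  have hpx : ∀ n : ℕ, b * (ph f)^[n] x = b * x + s * ((1 + b) ^ n - 1) := by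
    intro n
    induction n with
    | zero => simp
    | succ n ih =>
      rw [Function.iterate_succ_apply']
      have e : ph f ((ph f)^[n] x) = (ph f)^[n] x + (1 + b) ^ n * s := by
        conv_lhs => unfold ph
        rw [show f ((fun x => x + f x)^[n] x) = f ((ph f)^[n] x) from rfl, h.comm_f, ← hs, hps]
        rfl
      rw [e, mul_add, ih]; ring
  have ht : Filter.Tendsto (fun n : ℕ => (1 + b) ^ n) Filter.atTop Filter.atTop :=
    tendsto_pow_atTop_atTop_of_one_lt (by linarith)
  obtain ⟨n, hn⟩ := (ht.eventually_gt_atTop (1 + b * x / (-s))).exists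
  have h1 : b * (ph f)^[n] x < 0 := by
    rw [hpx]
    have hs' : 0 < -s := by linarith
    have h2 : b * x / (-s) < (1 + b) ^ n - 1 := by linarith
    rw [div_lt_iff₀ hs'] at h2
    nlinarith
  have h2 : (ph f)^[n] x < 0 := by
    by_contra hc
    push Not at hc
    nlinarith
  have h3 := hl _ h2.le
  rw [h.comm_f, ← hs, hps, hpx] at h3
  nlinarith

end Sol

/-- density argument -/
lemma zero_of_near {u : ℝ → ℝ} (hu : Continuous u) {t : ℝ}
    (h : ∀ η : ℝ, 0 < η → ∃ s, |s - t| < η ∧ |u s| < η) : u t = 0 := by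
  by_contra hne
  have hp : 0 < |u t| := abs_pos.2 hne
  have hc := Metric.continuous_iff.1 hu t (|u t| / 2) (by positivity)
  obtain ⟨δ, hδ, hd⟩ := hc
  obtain ⟨s, hs1, hs2⟩ := h (min δ (|u t| / 2)) (by positivity)
  have h1 := hd s (by rw [Real.dist_eq]; exact lt_of_lt_of_le hs1 (min_le_left _ _))
  rw [Real.dist_eq] at h1
  have h2 : |u s| < |u t| / 2 := lt_of_lt_of_le hs2 (min_le_right _ _)
  have h3 : |u t| ≤ |u t - u s| + |u s| := by
    have := abs_add_le (u t - u s) (u s)
    simpa using this
  rw [abs_sub_comm] at h3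
  linarith

/-- level sets are closed -/
lemma eq_of_near {u : ℝ → ℝ} (hu : Continuous u) {t c : ℝ}
    (h : ∀ η : ℝ, 0 < η → ∃ s, |s - t| < η ∧ u s = c) : u t = c := by
  have hcl : IsClosed {s | u s = c} := isClosed_eq hu continuous_const
  have : t ∈ closure {s | u s = c} := by
    rw [Metric.mem_closure_iff]
    intro ε hε
    obtain ⟨s, hs, hs2⟩ := h ε hε
    exact ⟨s, hs2, by rw [Real.dist_eq, abs_sub_comm]; exact hs⟩
  rw [hcl.closure_eq] at this
  exact this

/-- abstract periodicity lemma -/
lemma period {u v : ℝ → ℝ} (hu : Continuous u) {r : ℝ} (hr : 0 < r) (h0 : u 0 = 0)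
    (hur : u r = 0) (hpos : ∀ x, 0 < x → x < r → 0 < u x)
    (key : ∀ x y, u x = u y → ∀ n : ℕ, v^[n] x - v^[n] y = x - y ∧ u (v^[n] x) = u (v^[n] y))
    (back : ∀ z, 0 < z → z < r → ∃ w : ℕ → ℝ, (∀ k, 0 < w k ∧ w k < r) ∧
      Filter.Tendsto w Filter.atTop (nhds 0) ∧ ∀ k, v^[k] (w k) = z) :
    ∀ n : ℕ, ∀ z, 0 ≤ z → z ≤ r → u (z + n * r) = u z := by
  intro n
  induction n with
  | zero => intro z _ _; simp
  | succ n ih =>
    have hξ : u ((n + 1 : ℕ) * r) = 0 := by
      have := ih r hr.le le_rfl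
      rw [hur] at this
      rw [← this]; congr 1; push_cast; ring
    have main : ∀ z, 0 < z → z < r → u (z + (n + 1 : ℕ) * r) = u z := by
      intro z hz0 hzr
      obtain ⟨w, hw, hwt, hwz⟩ := back z hz0 hzr
      apply eq_of_near hu
      intro η hη
      set η' := min (η / 2) (r / 2) with hη'
      have hη'pos : 0 < η' := by positivity
      have hη'r : η' < r := by
        have := min_le_right (η / 2) (r / 2)
        linarith
      have hη'η : η' ≤ η / 2 := min_le_left _ _
      set ξ : ℝ := (n + 1 : ℕ) * r with hξdef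
      have hval : u (ξ - η') = u (r - η') := by
        have := ih (r - η') (by linarith) (by linarith)
        rw [← this]; congr 1; rw [hξdef]; push_cast; ring
      have hvpos : 0 < u (r - η') := hpos _ (by linarith) (by linarith)
      have hlim : Filter.Tendsto (fun k => u (w k)) Filter.atTop (nhds 0) := by
        have := (hu.tendsto 0).comp hwt
        rwa [h0] at this
      obtain ⟨k, hk1, hk2⟩ := ((hlim.eventually (gt_mem_nhds hvpos)).and
        (hwt.eventually (gt_mem_nhds (show (0 : ℝ) < η / 2 by positivity)))).exists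
      have hwk := hw k
      have hmem : u (w k) ∈ Set.Icc (u ξ) (u (ξ - η')) := by
        rw [hξ, hval]
        exact ⟨(hpos _ hwk.1 hwk.2).le, hk1.le⟩
      obtain ⟨x, hx, hxu⟩ := intermediate_value_Icc' (by linarith : ξ - η' ≤ ξ)
        hu.continuousOn hmem
      obtain ⟨k1, k2⟩ := key x (w k) hxu k
      rw [hwz k] at k1 k2
      refine ⟨v^[k] x, ?_, k2⟩
      have e : v^[k] x - (z + ξ) = (x - ξ) - w k := by linarith
      rw [e, abs_lt]
      constructor
      · linarith [hx.1, hwk.1]
      · linarith [hx.2, hwk.1]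
    intro z hz0 hzr
    have hcl : IsClosed {z | u (z + (n + 1 : ℕ) * r) = u z} :=
      isClosed_eq (hu.comp (continuous_id.add continuous_const)) hu
    have hsub : Set.Ioo 0 r ⊆ {z | u (z + (n + 1 : ℕ) * r) = u z} := fun z hz => main z hz.1 hz.2
    have := closure_minimal hsub hcl
    rw [closure_Ioo hr.ne] at this
    exact this ⟨hz0, hzr⟩

/-- consequence: sign on the half line -/
lemma nonneg_of_period {u : ℝ → ℝ} {r : ℝ} (hr : 0 < r)
    (hnn : ∀ x, 0 ≤ x → x ≤ r → 0 ≤ u x)
    (hp : ∀ n : ℕ, ∀ z, 0 ≤ z → z ≤ r → u (z + n * r) = u z) : ∀ x, 0 ≤ x → 0 ≤ u x := by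
  intro x hx
  set n := ⌊x / r⌋₊ with hn
  have h1 : (n : ℝ) ≤ x / r := Nat.floor_le (by positivity)
  have h2 : x / r < n + 1 := Nat.lt_floor_add_one _
  rw [le_div_iff₀ hr] at h1
  rw [div_lt_iff₀ hr] at h2
  have := hp n (x - n * r) (by linarith) (by linarith)
  rw [sub_add_cancel] at this
  rw [this]
  exact hnn _ (by linarith) (by linarith)

/-- first zero of a function positive near `0+` -/
lemma first_zero {u : ℝ → ℝ} (hu : Continuous u) {δ : ℝ} (hδ : 0 < δ)
    (hpos : ∀ x, 0 < x → x < δ → 0 < u x) {y : ℝ} (hy : 0 ≤ y) (hyn : u y ≤ 0) (h00 : 0 < y) :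
    ∃ r, 0 < r ∧ r ≤ y ∧ u r = 0 ∧ ∀ x, 0 < x → x < r → 0 < u x := by
  set S := {x | δ ≤ x ∧ u x ≤ 0} with hS
  have hyδ : δ ≤ y := by
    by_contra hc
    push Not at hc
    have := hpos y h00 hc
    linarith
  have hne : S.Nonempty := ⟨y, hyδ, hyn⟩
  have hbd : BddBelow S := ⟨δ, fun x hx => hx.1⟩
  have hcl : IsClosed S := (isClosed_le continuous_const continuous_id).inter
    (isClosed_le hu continuous_const)
  have hmem : sInf S ∈ S := hcl.csInf_mem hne hbd
  have hlt : ∀ x, 0 < x → x < sInf S → 0 < u x := by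
    intro x hx0 hx
    by_contra hc
    push Not at hc
    rcases lt_or_ge x δ with h1 | h1
    · have := hpos x hx0 h1; linarith
    · have := csInf_le hbd (show x ∈ S from ⟨h1, hc⟩)
      linarith
  have hr0 : 0 < sInf S := lt_of_lt_of_le hδ hmem.1
  refine ⟨sInf S, hr0, csInf_le hbd ⟨hyδ, hyn⟩, le_antisymm hmem.2 ?_, hlt⟩
  have hcl2 : IsClosed {x | 0 ≤ u x} := isClosed_le continuous_const hu
  have := closure_minimal (s := Set.Ioo 0 (sInf S)) (t := {x | 0 ≤ u x})
    (fun x hx => (hlt x hx.1 hx.2).le) hcl2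
  rw [closure_Ioo hr0.ne] at this
  exact this ⟨hr0.le, le_rfl⟩

/-- decreasing backward orbits converge -/
lemma back_conv {r : ℝ} {s : ℝ → ℝ} (hs : ∀ z, 0 < z → z < r → 0 < s z ∧ s z < z) {z : ℝ}
    (hz0 : 0 < z) (hzr : z < r) :
    (∀ k : ℕ, 0 < s^[k] z ∧ s^[k] z < r) ∧
      ∃ l, 0 ≤ l ∧ l < r ∧ Filter.Tendsto (fun k => s^[k] z) Filter.atTop (nhds l) := by
  have hmem : ∀ k : ℕ, 0 < s^[k] z ∧ s^[k] z < r := by
    intro k
    induction k with
    | zero => exact ⟨hz0, hzr⟩
    | succ k ih =>
      rw [Function.iterate_succ_apply']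
      have := hs _ ih.1 ih.2
      exact ⟨this.1, this.2.trans ih.2⟩
  have hanti : Antitone (fun k : ℕ => s^[k] z) := by
    apply antitone_nat_of_succ_le
    intro k
    rw [Function.iterate_succ_apply']
    exact (hs _ (hmem k).1 (hmem k).2).2.le
  have hbd : BddBelow (Set.range (fun k : ℕ => s^[k] z)) := by
    refine ⟨0, ?_⟩
    rintro _ ⟨k, rfl⟩
    exact (hmem k).1.le
  refine ⟨hmem, _, ?_, ?_, tendsto_atTop_ciInf hanti hbd⟩
  · exact le_ciInf (fun k => (hmem k).1.le)
  · exact lt_of_le_of_lt (ciInf_le hbd 0) hzr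

namespace Sol
variable {f : ℝ → ℝ}

lemma key_f (h : Sol f) (x y : ℝ) (hxy : f x = f y) (n : ℕ) :
    (ph f)^[n] x - (ph f)^[n] y = x - y ∧ f ((ph f)^[n] x) = f ((ph f)^[n] y) := by
  have hall : ∀ n, f ((ph f)^[n] x) = f ((ph f)^[n] y) := by
    intro n
    rw [h.comm_f, h.comm_f, hxy]
  refine ⟨?_, hall n⟩
  induction n with
  | zero => simp
  | succ n ih =>
    rw [Function.iterate_succ_apply', Function.iterate_succ_apply']
    have := hall n
    have e : ∀ t, ph f t = t + f t := fun t => rfl
    rw [e, e, this]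
    linarith

lemma key_ph (h : Sol f) (x y : ℝ) (hxy : ph f x = ph f y) (n : ℕ) :
    (fun t => f (f t))^[n] x - (fun t => f (f t))^[n] y = x - y ∧
      ph f ((fun t => f (f t))^[n] x) = ph f ((fun t => f (f t))^[n] y) := by
  have hstep : ∀ x y, ph f x = ph f y → f (f x) - f (f y) = x - y ∧
      ph f (f (f x)) = ph f (f (f y)) := by
    intro x y hxy
    have e1 : f x - f y = -(x - y) := by unfold ph at hxy; linarith
    have e2 : ph f (f x) = ph f (f y) := by rw [← h.comm_apply, ← h.comm_apply, hxy]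
    have e3 : f (f x) - f (f y) = -(f x - f y) := by unfold ph at e2; linarith
    refine ⟨by rw [e3, e1]; ring, ?_⟩
    rw [← h.comm_apply (f x), ← h.comm_apply (f y), e2]
  induction n with
  | zero => simpa using hxy
  | succ n ih =>
    rw [Function.iterate_succ_apply', Function.iterate_succ_apply']
    have := hstep _ _ ih.2
    exact ⟨by rw [← ih.1]; exact this.1, this.2⟩

/-- positive near `0+` implies nonnegative on the half line -/
theorem right_pos (h : Sol f) {δ : ℝ} (hδ : 0 < δ) (hpos : ∀ x, 0 < x → x < δ → 0 < f x) :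
    ∀ x, 0 ≤ x → 0 ≤ f x := by
  intro y hy
  by_contra hneg
  push Not at hneg
  have hy0 : 0 < y := by
    rcases hy.lt_or_eq with h1 | h1
    · exact h1
    · rw [← h1, h.zero] at hneg; exact absurd hneg (lt_irrefl _)
  obtain ⟨r, hr, _, hfr, hp⟩ := first_zero h.cont hδ hpos hy hneg.le hy0
  have hs : ∀ z, ∃ s, 0 < z → z < r → 0 < s ∧ s < z ∧ ph f s = z := by
    intro z
    by_cases hz : 0 < z ∧ z < r
    · have hlt : z < ph f z := by unfold ph; linarith [hp z hz.1 hz.2]
      have hmem : z ∈ Set.Ioo (ph f 0) (ph f z) := by rw [h.ph_zero]; exact ⟨hz.1, hlt⟩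
      obtain ⟨s, hs1, hs2⟩ := intermediate_value_Ioo hz.1.le h.ph_cont.continuousOn hmem
      exact ⟨s, fun _ _ => ⟨hs1.1, hs1.2, hs2⟩⟩
    · exact ⟨0, fun a b => absurd ⟨a, b⟩ hz⟩
  choose s hs using hs
  have back : ∀ z, 0 < z → z < r → ∃ w : ℕ → ℝ, (∀ k, 0 < w k ∧ w k < r) ∧
      Filter.Tendsto w Filter.atTop (nhds 0) ∧ ∀ k, (ph f)^[k] (w k) = z := by
    intro z hz0 hzr
    obtain ⟨hmem, l, hl0, hlr, hl⟩ := back_conv (s := s) (r := r)
      (fun z a b => ⟨(hs z a b).1, (hs z a b).2.1⟩) hz0 hzr
    have hfix : ph f l = l := by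
      have h1 : Filter.Tendsto (fun k => ph f (s^[k + 1] z)) Filter.atTop (nhds (ph f l)) :=
        (h.ph_cont.tendsto l).comp (hl.comp (Filter.tendsto_add_atTop_nat 1))
      have h2 : (fun k => ph f (s^[k + 1] z)) = fun k => s^[k] z := by
        ext k
        rw [Function.iterate_succ_apply']
        exact (hs _ (hmem k).1 (hmem k).2).2.2
      rw [h2] at h1
      exact tendsto_nhds_unique h1 hl
    have hl' : l = 0 := by
      by_contra hne
      have hlp : 0 < l := lt_of_le_of_ne hl0 (Ne.symm hne)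
      have := hp l hlp hlr
      unfold ph at hfix
      linarith
    rw [hl'] at hl
    refine ⟨fun k => s^[k] z, hmem, hl, fun k => ?_⟩
    induction k with
    | zero => rfl
    | succ k ih =>
      show (ph f)^[k + 1] (s^[k + 1] z) = z
      rw [Function.iterate_succ_apply (ph f), Function.iterate_succ_apply' s,
        (hs _ (hmem k).1 (hmem k).2).2.2]
      exact ih
  have hper := period h.cont hr h.zero hfr hp h.key_f back
  have := nonneg_of_period hr (fun x hx0 hxr => by
    rcases hx0.lt_or_eq with h1 | h1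
    · rcases hxr.lt_or_eq with h2 | h2
      · exact (hp x h1 h2).le
      · rw [h2, hfr]
    · rw [← h1, h.zero]) hper y hy
  linarith

/-- contribution of a zero of `ph f` in the expanding situation -/
lemma expand_half (h : Sol f) {r : ℝ} (hr : 0 < r) (hp : ∀ x, 0 < x → x < r → ph f x < 0)
    (hn : ∀ x, -r < x → x < 0 → 0 < ph f x) (hfr : ph f r = 0) : ∀ x, 0 ≤ x → ph f x ≤ 0 := by
  have hs : ∀ z, ∃ s, 0 < z → z < r → 0 < s ∧ s < z ∧ f (f s) = z ∧ -z < f s ∧ f s < -s := by
    intro z
    by_cases hz : 0 < z ∧ z < r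
    · have h1 : 0 < ph f (-z) := hn (-z) (by linarith [hz.2]) (by linarith [hz.1])
      have hmem : z ∈ Set.Ioo (f 0) (f (-z)) := by
        rw [h.zero]; unfold ph at h1; exact ⟨hz.1, by linarith⟩
      obtain ⟨a, ha1, ha2⟩ := intermediate_value_Ioo' (by linarith [hz.1] : -z ≤ 0)
        h.cont.continuousOn hmem
      have h2 : ph f (-a) < 0 := hp (-a) (by linarith [ha1.2]) (by linarith [ha1.1, hz.2])
      have hmem2 : a ∈ Set.Ioo (f (-a)) (f 0) := by
        rw [h.zero]; unfold ph at h2; exact ⟨by linarith, ha1.2⟩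
      obtain ⟨b, hb1, hb2⟩ := intermediate_value_Ioo' (by linarith [ha1.2] : 0 ≤ -a)
        h.cont.continuousOn hmem2
      refine ⟨b, fun _ _ => ⟨hb1.1, by linarith [hb1.2, ha1.1], by rw [hb2, ha2], ?_, ?_⟩⟩
      · rw [hb2]; exact ha1.1
      · rw [hb2]; linarith [hb1.2]
    · exact ⟨0, fun a b => absurd ⟨a, b⟩ hz⟩
  choose s hs using hs
  have back : ∀ z, 0 < z → z < r → ∃ w : ℕ → ℝ, (∀ k, 0 < w k ∧ w k < r) ∧
      Filter.Tendsto w Filter.atTop (nhds 0) ∧ ∀ k, (fun t => f (f t))^[k] (w k) = z := by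
    intro z hz0 hzr
    obtain ⟨hmem, l, hl0, hlr, hl⟩ := back_conv (s := s) (r := r)
      (fun z a b => ⟨(hs z a b).1, (hs z a b).2.1⟩) hz0 hzr
    have hl1 := hl.comp (Filter.tendsto_add_atTop_nat 1)
    have hfix : f l = -l := by
      have h1 : Filter.Tendsto (fun k => f (s^[k + 1] z)) Filter.atTop (nhds (f l)) :=
        (h.cont.tendsto l).comp hl1
      have h2 : Filter.Tendsto (fun k => f (s^[k + 1] z)) Filter.atTop (nhds (-l)) := by
        refine tendsto_of_tendsto_of_tendsto_of_le_of_le hl.neg hl1.neg (fun k => ?_) (fun k => ?_)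
        · show -(s^[k] z) ≤ f (s^[k + 1] z)
          rw [Function.iterate_succ_apply']
          exact (hs _ (hmem k).1 (hmem k).2).2.2.2.1.le
        · show f (s^[k + 1] z) ≤ -(s^[k + 1] z)
          rw [Function.iterate_succ_apply']
          exact (hs _ (hmem k).1 (hmem k).2).2.2.2.2.le
      exact tendsto_nhds_unique h1 h2
    have hl' : l = 0 := by
      by_contra hne
      have hlp : 0 < l := lt_of_le_of_ne hl0 (Ne.symm hne)
      have := hp l hlp hlr
      unfold ph at this
      linarith
    rw [hl'] at hl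
    refine ⟨fun k => s^[k] z, hmem, hl, fun k => ?_⟩
    induction k with
    | zero => rfl
    | succ k ih =>
      show (fun t => f (f t))^[k + 1] (s^[k + 1] z) = z
      rw [Function.iterate_succ_apply (fun t => f (f t)), Function.iterate_succ_apply' s,
        (hs _ (hmem k).1 (hmem k).2).2.2.1]
      exact ih
  have hper := period (u := fun x => -ph f x) (v := fun t => f (f t)) h.ph_cont.neg hr
    (by simp [h.ph_zero]) (by simp [hfr]) (fun x a b => by
      have := hp x a b
      linarith)
    (fun x y hxy n => by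
      have := h.key_ph x y (neg_inj.1 hxy) n
      exact ⟨this.1, by rw [this.2]⟩) back
  intro x hx
  have := nonneg_of_period (u := fun x => -ph f x) hr (fun x hx0 hxr => by
    rcases hx0.lt_or_eq with h1 | h1
    · rcases hxr.lt_or_eq with h2 | h2
      · linarith [hp x h1 h2]
      · rw [h2, hfr]; simp
    · rw [← h1, h.ph_zero]; simp) hper x hx
  linarith

/-- local expanding behaviour is global -/
theorem expand (h : Sol f) {δ : ℝ} (hδ : 0 < δ) (hp : ∀ x, 0 < x → x < δ → ph f x < 0)
    (hn : ∀ x, -δ < x → x < 0 → 0 < ph f x) : Weak f := by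
  -- statement about the positive side, valid for every such solution
  have side : ∀ g : ℝ → ℝ, Sol g → (∀ x, 0 < x → x < δ → ph g x < 0) →
      (∀ x, -δ < x → x < 0 → 0 < ph g x) → ∀ x, 0 ≤ x → ph g x ≤ 0 := by
    intro g hg hp hn x hx
    by_contra hc
    push Not at hc
    have hx0 : 0 < x := by
      rcases hx.lt_or_eq with h1 | h1
      · exact h1
      · rw [← h1, hg.ph_zero] at hc; exact absurd hc (lt_irrefl _)
    obtain ⟨r, hr, _, hfr, hpr⟩ := first_zero (u := fun x => -ph g x) hg.ph_cont.neg hδ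
      (fun x a b => by have := hp x a b; linarith) hx (by linarith) hx0
    have hfr' : ph g r = 0 := by simpa using hfr
    -- negative side: first zero at distance r'
    have hfr2 : ph g (-r) = 0 := by
      have : g r = -r := by unfold ph at hfr'; linarith
      rw [← this, ← hg.comm_apply, hfr', hg.zero]
    obtain ⟨r', hr', hr'r, hfr3, hnr⟩ := first_zero (u := fun x => ph g (-x))
      (hg.ph_cont.comp continuous_neg) hδ
      (fun x a b => hn (-x) (by linarith) (by linarith)) hr.le (by rw [hfr2]) hr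
    have hfr4 : ph g r' = 0 := by
      have h1 : ph g (-r') = 0 := hfr3
      have : g (-r') = r' := by unfold ph at h1; linarith
      rw [← this, ← hg.comm_apply, h1, hg.zero]
    have heq : r' = r := by
      rcases hr'r.lt_or_eq with h1 | h1
      · have := hpr r' hr' h1
        linarith
      · exact h1
    subst heq
    have := hg.expand_half hr (fun x a b => by have := hpr x a b; linarith)
      (fun x a b => by
        have := hnr (-x) (by linarith) (by linarith)
        simpa using this) hfr' x hx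
    linarith
  have hA := side f h hp hn
  have hB := side (mir f) h.mirror (fun x a b => by
      rw [ph_mir]; linarith [hn (-x) (by linarith) (by linarith)])
    (fun x a b => by
      rw [ph_mir]; linarith [hp (-x) (by linarith) (by linarith)])
  refine { cont := h.cont, eq := h.eq, neg := ?_, pos := ?_ }
  · intro x hx
    have := hA x hx
    unfold ph at this; linarith
  · intro x hx
    have := hB (-x) (by linarith)
    rw [ph_mir, neg_neg] at this
    unfold ph at this; linarith

end Sol
end Pool.Agent.Helper685.FE
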