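import Mathlib
import Pool.Agent.Helper685.FE.Half

set_option autoImplicit false

namespace Pool.Agent.Helper685.FE

/-- trichotomy near `0+` -/
lemma tri {u : ℝ → ℝ} (hu : Continuous u) :
    (∃ δ : ℝ, 0 < δ ∧ ∀ x, 0 < x → x < δ → 0 < u x) ∨
    (∃ δ : ℝ, 0 < δ ∧ ∀ x, 0 < x → x < δ → u x < 0) ∨
    (∀ ε : ℝ, 0 < ε → ∃ w, 0 < w ∧ w < ε ∧ u w = 0) := by
  by_cases hz : ∀ ε : ℝ, 0 < ε → ∃ w, 0 < w ∧ w < ε ∧ u w = 0
  · exact Or.inr (Or.inr hz)
  push Not at hz
  obtain ⟨ε, hε, hne⟩ := hz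
  rcases lt_or_ge 0 (u (ε / 2)) with h1 | h1
  · left
    refine ⟨ε, hε, fun x hx0 hx => ?_⟩
    by_contra hc
    push Not at hc
    have hmem : (0 : ℝ) ∈ Set.uIcc (u x) (u (ε / 2)) := Set.mem_uIcc.2 (Or.inl ⟨hc, h1.le⟩)
    obtain ⟨z, hz, hz0⟩ := intermediate_value_uIcc hu.continuousOn hmem
    rcases Set.mem_uIcc.1 hz with h2 | h2
    · exact hne z (by linarith) (by linarith) hz0
    · exact hne z (by linarith) (by linarith) hz0
  · right; left
    refine ⟨ε, hε, fun x hx0 hx => ?_⟩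
    by_contra hc
    push Not at hc
    have hmem : (0 : ℝ) ∈ Set.uIcc (u x) (u (ε / 2)) := Set.mem_uIcc.2 (Or.inr ⟨h1, hc⟩)
    obtain ⟨z, hz, hz0⟩ := intermediate_value_uIcc hu.continuousOn hmem
    rcases Set.mem_uIcc.1 hz with h2 | h2
    · exact hne z (by linarith) (by linarith) hz0
    · exact hne z (by linarith) (by linarith) hz0

/-- right end of a positivity stretch -/
lemma right_end {u : ℝ → ℝ} (hu : Continuous u) {y t : ℝ} (hy : 0 < u y) (hyt : y ≤ t)
    (ht : u t ≤ 0) : ∃ b, y < b ∧ b ≤ t ∧ u b = 0 ∧ ∀ x, y ≤ x → x < b → 0 < u x := by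
  set S := {x | y ≤ x ∧ u x ≤ 0} with hS
  have hne : S.Nonempty := ⟨t, hyt, ht⟩
  have hbd : BddBelow S := ⟨y, fun x hx => hx.1⟩
  have hcl : IsClosed S := (isClosed_le continuous_const continuous_id).inter
    (isClosed_le hu continuous_const)
  have hmem : sInf S ∈ S := hcl.csInf_mem hne hbd
  have hlt : ∀ x, y ≤ x → x < sInf S → 0 < u x := by
    intro x hx0 hx
    by_contra hc
    push Not at hc
    have := csInf_le hbd (show x ∈ S from ⟨hx0, hc⟩)
    linarith
  have hyb : y < sInf S := by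
    rcases hmem.1.lt_or_eq with h1 | h1
    · exact h1
    · have := hmem.2; rw [← h1] at this; linarith
  refine ⟨sInf S, hyb, csInf_le hbd ⟨hyt, ht⟩, le_antisymm hmem.2 ?_, hlt⟩
  have hcl2 : IsClosed {x | 0 ≤ u x} := isClosed_le continuous_const hu
  have := closure_minimal (s := Set.Ioo y (sInf S)) (t := {x | 0 ≤ u x})
    (fun x hx => (hlt x hx.1.le hx.2).le) hcl2
  rw [closure_Ioo hyb.ne] at this
  exact this ⟨hyb.le, le_rfl⟩

/-- left end of a positivity stretch -/
lemma left_end {u : ℝ → ℝ} (hu : Continuous u) {y t : ℝ} (hy : 0 < u y) (hyt : t ≤ y)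
    (ht : u t ≤ 0) : ∃ b, b < y ∧ t ≤ b ∧ u b = 0 ∧ ∀ x, b < x → x ≤ y → 0 < u x := by
  obtain ⟨b, h1, h2, h3, h4⟩ := right_end (u := fun x => u (-x)) (hu.comp continuous_neg)
    (y := -y) (t := -t) (by simpa using hy) (by linarith) (by simpa using ht)
  refine ⟨-b, by linarith, by linarith, h3, fun x hx0 hx => ?_⟩
  have := h4 (-x) (by linarith) (by linarith)
  simpa using this

/-- near a right end the function takes small positive values -/
lemma small_left {u : ℝ → ℝ} (hu : Continuous u) {y b : ℝ} (hyb : y < b) (hb : u b = 0)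
    (hp : ∀ x, y ≤ x → x < b → 0 < u x) {η : ℝ} (hη : 0 < η) :
    ∃ c : ℝ, 0 < c ∧ ∀ w, 0 < w → w < c → ∃ x, |x - b| < η ∧ x < b ∧ u x = w := by
  set s := max y (b - η / 2) with hs
  have hsb : s < b := max_lt hyb (by linarith)
  have hys : y ≤ s := le_max_left _ _
  have hps : 0 < u s := hp s hys hsb
  refine ⟨u s, hps, fun w hw0 hw => ?_⟩
  have hmem : w ∈ Set.Ioo (u b) (u s) := by rw [hb]; exact ⟨hw0, hw⟩
  obtain ⟨x, hx1, hx2⟩ := intermediate_value_Ioo' hsb.le hu.continuousOn hmem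
  refine ⟨x, ?_, hx1.2, hx2⟩
  have : b - η / 2 ≤ s := le_max_right _ _
  rw [abs_lt]
  constructor <;> linarith [hx1.1, hx1.2]

/-- near a left end the function takes small positive values -/
lemma small_right {u : ℝ → ℝ} (hu : Continuous u) {y b : ℝ} (hyb : b < y) (hb : u b = 0)
    (hp : ∀ x, b < x → x ≤ y → 0 < u x) {η : ℝ} (hη : 0 < η) :
    ∃ c : ℝ, 0 < c ∧ ∀ w, 0 < w → w < c → ∃ x, |x - b| < η ∧ b < x ∧ u x = w := by
  obtain ⟨c, hc, h⟩ := small_left (u := fun x => u (-x)) (hu.comp continuous_neg)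
    (y := -y) (b := -b) (by linarith) (by simpa using hb)
    (fun x h1 h2 => hp (-x) (by linarith) (by linarith)) hη
  refine ⟨c, hc, fun w hw0 hw => ?_⟩
  obtain ⟨x, hx1, hx2, hx3⟩ := h w hw0 hw
  refine ⟨-x, ?_, by linarith, hx3⟩
  rw [abs_sub_comm]
  have : b - -x = x - -b := by ring
  rw [this]; exact hx1

/-- stepping to the right with a small step reaches any target approximately -/
lemma step_right {x t w : ℝ} (hw : 0 < w) (hxt : x ≤ t) : ∃ n : ℕ, |x + n * w - t| < w := by
  refine ⟨⌊(t - x) / w⌋₊, ?_⟩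
  have h1 : (⌊(t - x) / w⌋₊ : ℝ) ≤ (t - x) / w := Nat.floor_le (by
    apply div_nonneg _ hw.le; linarith)
  have h2 : (t - x) / w < ⌊(t - x) / w⌋₊ + 1 := Nat.lt_floor_add_one _
  rw [le_div_iff₀ hw] at h1
  rw [div_lt_iff₀ hw] at h2
  rw [abs_lt]
  constructor <;> linarith

namespace Sol
variable {f : ℝ → ℝ}

lemma walk (h : Sol f) {x w : ℝ} (hw : f w = 0) (hx : f x = w) (n : ℕ) : f (x + n * w) = w := by
  induction n with
  | zero => simpa using hx
  | succ n ih =>
    have := h.eq (x + n * w)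
    rw [ih, hw] at this
    rw [add_zero] at this
    rw [← this]; congr 1
    rw [this]; push_cast; ring

/-- zeros accumulating at `0+` force `f ≤ 0` -/
theorem accum (h : Sol f) (hz : ∀ ε : ℝ, 0 < ε → ∃ w, 0 < w ∧ w < ε ∧ f w = 0) :
    ∀ y, f y ≤ 0 := by
  intro y
  by_contra hc
  push Not at hc
  -- if a left end exists
  by_cases hL : ∃ t, t ≤ y ∧ f t ≤ 0
  · obtain ⟨t, hty, ht⟩ := hL
    obtain ⟨b, hb1, _, hb3, hb4⟩ := left_end h.cont hc hty ht
    have : f y = 0 := by
      apply zero_of_near h.cont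
      intro η hη
      set η' := min (η / 2) (y - b) with hη'
      have hη'pos : 0 < η' := lt_min (by linarith) (by linarith)
      obtain ⟨c, hc0, hcx⟩ := small_right h.cont hb1 hb3 hb4 hη'pos
      obtain ⟨w, hw0, hw1, hwz⟩ := hz (min c (η / 2)) (lt_min hc0 (by linarith))
      obtain ⟨x, hx1, hx2, hx3⟩ := hcx w hw0 (lt_of_lt_of_le hw1 (min_le_left _ _))
      have hwη : w < η / 2 := lt_of_lt_of_le hw1 (min_le_right _ _)
      have hxy : x ≤ y := by
        have h5 := (abs_lt.1 hx1).2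
        have h6 := min_le_right (η / 2) (y - b)
        linarith
      obtain ⟨n, hn⟩ := step_right hw0 hxy
      refine ⟨x + n * w, by linarith, ?_⟩
      rw [h.walk hwz hx3 n, abs_of_pos hw0]; linarith
    linarith
  · push Not at hL
    have hy0 : y < 0 := by
      by_contra hge
      push Not at hge
      have := hL 0 hge
      rw [h.zero] at this
      exact lt_irrefl _ this
    obtain ⟨b, hb1, hb2, hb3, hb4⟩ := right_end h.cont hc hy0.le h.zero.le
    have hall : ∀ t, b ≤ t → f t = 0 := by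
      intro t ht
      apply zero_of_near h.cont
      intro η hη
      obtain ⟨c, hc0, hcx⟩ := small_left h.cont hb1 hb3 hb4 (show 0 < η by exact hη)
      obtain ⟨w, hw0, hw1, hwz⟩ := hz (min c η) (lt_min hc0 hη)
      obtain ⟨x, hx1, hx2, hx3⟩ := hcx w hw0 (lt_of_lt_of_le hw1 (min_le_left _ _))
      have hwη : w < η := lt_of_lt_of_le hw1 (min_le_right _ _)
      obtain ⟨n, hn⟩ := step_right hw0 (show x ≤ t by linarith)
      refine ⟨x + n * w, by linarith, ?_⟩
      rw [h.walk hwz hx3 n, abs_of_pos hw0]; exact hwη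
    -- walk from y
    have hfy : f (f y) = 0 := hall _ (by linarith)
    obtain ⟨n, hn⟩ := exists_nat_gt ((b - y) / f y)
    rw [div_lt_iff₀ hc] at hn
    have h1 := h.walk hfy rfl n
    have h2 := hall (y + n * f y) (by linarith)
    linarith

lemma walk_ph (h : Sol f) {x w : ℝ} (hw : ph f w = 0) (hx : ph f x = w) (n : ℕ) :
    ph f (x - n * (2 * w)) = w := by
  have hfw : f w = -w := by unfold ph at hw; linarith
  have hw' : ph f (-w) = 0 := by rw [← hfw, ← h.comm_apply, hw, h.zero]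
  have hfw' : f (-w) = w := by unfold ph at hw'; linarith
  induction n with
  | zero => simpa using hx
  | succ n ih =>
    set z := x - n * (2 * w) with hz
    have e1 : f z = w - z := by unfold ph at ih; linarith
    have e2 : ph f (f z) = -w := by rw [← h.comm_apply, ih, hfw]
    have e3 : f (f z) = z - 2 * w := by
      have : ph f (f z) = f z + f (f z) := rfl
      rw [this] at e2; linarith
    have e4 : ph f (f (f z)) = w := by rw [← h.comm_apply (f z), e2, hfw']
    rw [e3] at e4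
    have e5 : x - ((n + 1 : ℕ) : ℝ) * (2 * w) = z - 2 * w := by rw [hz]; push_cast; ring
    rw [e5]; exact e4

lemma ph_refl (h : Sol f) {x w : ℝ} (hw : ph f w = 0) (hx : ph f x = w) :
    ph f (w - x) = -w := by
  have hfw : f w = -w := by unfold ph at hw; linarith
  have e1 : f x = w - x := by unfold ph at hx; linarith
  rw [← e1, ← h.comm_apply, hx, hfw]

lemma ph_neg_zero (h : Sol f) {w : ℝ} (hw : ph f w = 0) : ph f (-w) = 0 := by
  have hfw : f w = -w := by unfold ph at hw; linarith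
  rw [← hfw, ← h.comm_apply, hw, h.zero]

/-- zeros of `ph f` accumulating at `0+` force `ph f ≤ 0` -/
theorem accum_ph_le (h : Sol f) (hz : ∀ ε : ℝ, 0 < ε → ∃ w, 0 < w ∧ w < ε ∧ ph f w = 0) :
    ∀ y, ph f y ≤ 0 := by
  intro y
  by_contra hc
  push Not at hc
  by_cases hR : ∃ t, y ≤ t ∧ ph f t ≤ 0
  · obtain ⟨t, hty, ht⟩ := hR
    obtain ⟨b, hb1, _, hb3, hb4⟩ := right_end h.ph_cont hc hty ht
    have : ph f y = 0 := by
      apply zero_of_near h.ph_cont
      intro η hη
      set η' := min (η / 2) (b - y) with hη'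
      have hη'pos : 0 < η' := lt_min (by linarith) (by linarith)
      obtain ⟨c, hc0, hcx⟩ := small_left h.ph_cont hb1 hb3 hb4 hη'pos
      obtain ⟨w, hw0, hw1, hwz⟩ := hz (min c (η / 4)) (lt_min hc0 (by linarith))
      obtain ⟨x, hx1, hx2, hx3⟩ := hcx w hw0 (lt_of_lt_of_le hw1 (min_le_left _ _))
      have hwη : w < η / 4 := lt_of_lt_of_le hw1 (min_le_right _ _)
      have hxy : y ≤ x := by
        have h5 := (abs_lt.1 hx1).1
        have h6 := min_le_right (η / 2) (b - y)
        linarith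
      obtain ⟨n, hn⟩ := step_right (show 0 < 2 * w by linarith) (show -x ≤ -y by linarith)
      refine ⟨x - n * (2 * w), ?_, ?_⟩
      · have e : x - n * (2 * w) - y = -(-x + n * (2 * w) - -y) := by ring
        rw [e, abs_neg]; linarith
      · rw [h.walk_ph hwz hx3 n, abs_of_pos hw0]; linarith
    linarith
  · push Not at hR
    have hy0 : 0 < y := by
      by_contra hge
      push Not at hge
      have := hR 0 hge
      rw [h.ph_zero] at this
      exact lt_irrefl _ this
    obtain ⟨b, hb1, hb2, hb3, hb4⟩ := left_end h.ph_cont hc hy0.le h.ph_zero.le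
    have : ph f y = 0 := by
      apply zero_of_near h.ph_cont
      intro η hη
      obtain ⟨c, hc0, hcx⟩ := small_right h.ph_cont hb1 hb3 hb4 (show 0 < min (η / 2) (y / 2) by
        exact lt_min (by linarith) (by linarith))
      obtain ⟨w, hw0, hw1, hwz⟩ := hz (min c (min (η / 4) (y / 2)))
        (lt_min hc0 (lt_min (by linarith) (by linarith)))
      obtain ⟨x, hx1, hx2, hx3⟩ := hcx w hw0 (lt_of_lt_of_le hw1 (min_le_left _ _))
      have hwη : w < η / 4 :=
        lt_of_lt_of_le hw1 ((min_le_right _ _).trans (min_le_left _ _))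
      have hwy : w < y / 2 :=
        lt_of_lt_of_le hw1 ((min_le_right _ _).trans (min_le_right _ _))
      -- reflected point
      have hrefl := h.ph_refl hwz hx3
      have hwalk := h.walk_ph (x := w - x) (w := -w) (h.ph_neg_zero hwz) hrefl
      obtain ⟨n, hn⟩ := step_right (show 0 < 2 * w by linarith)
        (show w - x ≤ y by linarith)
      refine ⟨w - x - n * (2 * -w), ?_, ?_⟩
      · have e : w - x - n * (2 * -w) - y = w - x + n * (2 * w) - y := by ring
        rw [e]; linarith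
      · rw [hwalk n, abs_neg, abs_of_pos hw0]; linarith
    linarith

/-- zeros of `ph f` accumulating at `0+` force `f = -id` -/
theorem accum_ph (h : Sol f) (hz : ∀ ε : ℝ, 0 < ε → ∃ w, 0 < w ∧ w < ε ∧ ph f w = 0) :
    ∀ y, f y = -y := by
  intro y
  have h1 := h.accum_ph_le hz y
  have h2 := h.mirror.accum_ph_le (by
    intro ε hε
    obtain ⟨w, hw0, hw1, hw2⟩ := hz ε hε
    refine ⟨w, hw0, hw1, ?_⟩
    rw [ph_mir, h.ph_neg_zero hw2, neg_zero]) (-y)
  rw [ph_mir, neg_neg] at h2
  unfold ph at h1 h2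
  linarith

end Sol
end Pool.Agent.Helper685.FE
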