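import Mathlib
import Pool.Agent.Helper685.FE.Accum

set_option autoImplicit false

namespace Pool.Agent.Helper685.FE

/-- shifted log-convexity of Pascal arrays -/
lemma arr_ratio (P : ℕ → ℕ → ℝ) (h0 : ∀ i j, 0 < P i j)
    (h : ∀ i j, P i j = P (i + 1) j + P i (j + 1)) (k j : ℕ) :
    P (k + 1) j ^ 2 ≤ P k j * P (k + 2) j := by
  have := arr_logconvex (fun a b => P (k + a) (j + b)) (fun a b => (h0 _ _).le)
    (fun a b => h (k + a) (j + b))
  simpa using this

lemma arr_mono (P : ℕ → ℕ → ℝ) (h0 : ∀ i j, 0 < P i j)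
    (h : ∀ i j, P i j = P (i + 1) j + P i (j + 1)) {c : ℝ} {k j : ℕ}
    (hk : c * P k j ≤ P (k + 1) j) : ∀ k', k ≤ k' → c * P k' j ≤ P (k' + 1) j := by
  intro k' hk'
  induction k', hk' using Nat.le_induction with
  | base => exact hk
  | succ n _ ih =>
    have h1 := arr_ratio P h0 h n j
    have hn := h0 n j
    have hn1 := h0 (n + 1) j
    have h2 : (c * P (n + 1) j) * P n j ≤ P (n + 1 + 1) j * P n j := by
      calc (c * P (n + 1) j) * P n j = (c * P n j) * P (n + 1) j := by ring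
        _ ≤ P (n + 1) j * P (n + 1) j := mul_le_mul_of_nonneg_right ih hn1.le
        _ = P (n + 1) j ^ 2 := by ring
        _ ≤ P n j * P (n + 2) j := h1
        _ = _ := by ring
    exact le_of_mul_le_mul_right h2 hn

/-- a lower ratio bound propagates to all columns, eventually -/
lemma arr_prop (P : ℕ → ℕ → ℝ) (h0 : ∀ i j, 0 < P i j)
    (h : ∀ i j, P i j = P (i + 1) j + P i (j + 1))
    (hlim : ∀ j, Filter.Tendsto (fun k => P k j) Filter.atTop (nhds 0)) {b : ℝ}
    (hb : b * P 0 0 ≤ P 1 0) (j : ℕ) : ∀ c, c < b → ∃ k, c * P k j ≤ P (k + 1) j := by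
  induction j with
  | zero =>
    intro c hc
    refine ⟨0, ?_⟩
    have := h0 0 0
    simp only [zero_add]
    nlinarith
  | succ j ih =>
    intro c hc
    obtain ⟨c', hc1, hc2⟩ := exists_between hc
    obtain ⟨k0, hk0⟩ := ih c' hc2
    by_contra hcon
    push Not at hcon
    -- D k = P k (j+1) - (1-c) P k j
    set D : ℕ → ℝ := fun k => P k (j + 1) - (1 - c) * P k j with hD
    have hanti : Antitone D := by
      apply antitone_nat_of_succ_le
      intro k
      have h1 := h k j
      have h2 := hcon k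
      simp only [hD]
      have h3 : P (k + 1) j = P k j - P k (j + 1) := by linarith
      rw [h3]
      nlinarith
    have hDlim : Filter.Tendsto D Filter.atTop (nhds 0) := by
      have := (hlim (j + 1)).sub ((hlim j).const_mul (1 - c))
      simpa using this
    have hD0 : 0 ≤ D k0 := by
      refine ge_of_tendsto' (x := Filter.atTop) (f := fun _ : ℕ => D k0) ?_ ?_ |> fun h => h
      · exact tendsto_const_nhds
      · intro _
        refine le_of_tendsto hDlim ?_
        filter_upwards [Filter.eventually_ge_atTop k0] with k hk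
        exact hanti hk
    simp only [hD] at hD0
    have h1 := h k0 j
    have hp := h0 k0 j
    nlinarith

lemma arr_col (P : ℕ → ℕ → ℝ) (h0 : ∀ i j, 0 < P i j)
    (h : ∀ i j, P i j = P (i + 1) j + P i (j + 1))
    (hlim : ∀ j, Filter.Tendsto (fun k => P k j) Filter.atTop (nhds 0)) {b c : ℝ}
    (hb : b * P 0 0 ≤ P 1 0) (hcb : c < b) (hc1 : c ≤ 1) (n : ℕ) :
    ∃ K, ∀ k, K ≤ k → P k n ≤ (1 - c) ^ n * P k 0 := by
  induction n with
  | zero => exact ⟨0, fun k _ => by simp⟩
  | succ n ih =>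
    obtain ⟨K, hK⟩ := ih
    obtain ⟨k0, hk0⟩ := arr_prop P h0 h hlim hb n c hcb
    refine ⟨max K k0, fun k hk => ?_⟩
    have h1 := hK k ((le_max_left _ _).trans hk)
    have h2 := arr_mono P h0 h hk0 k ((le_max_right _ _).trans hk)
    have h3 := h k n
    calc P k (n + 1) = P k n - P (k + 1) n := by linarith
      _ ≤ (1 - c) * P k n := by linarith
      _ ≤ (1 - c) * ((1 - c) ^ n * P k 0) := mul_le_mul_of_nonneg_left h1 (by linarith)
      _ = _ := by ring

/-- comparison far along the array -/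
lemma arr_big (P : ℕ → ℕ → ℝ) (h0 : ∀ i j, 0 < P i j)
    (h : ∀ i j, P i j = P (i + 1) j + P i (j + 1))
    (hlim : ∀ j, Filter.Tendsto (fun k => P k j) Filter.atTop (nhds 0)) {b c : ℝ}
    (hb : b * P 0 0 ≤ P 1 0) (hc0 : 0 ≤ c) (hcb : c < b) (hc1 : c ≤ 1) (m n : ℕ)
    (hmn : (1 - c) ^ n < c ^ m) : ∃ K, ∀ k, K ≤ k → P k n < P (k + m) 0 := by
  obtain ⟨K, hK⟩ := arr_col P h0 h hlim hb hcb hc1 n
  obtain ⟨k0, hk0⟩ := arr_prop P h0 h hlim hb 0 c hcb
  refine ⟨max K k0, fun k hk => ?_⟩
  have h1 := hK k ((le_max_left _ _).trans hk)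
  have h2 : ∀ m, c ^ m * P k 0 ≤ P (k + m) 0 := by
    intro m
    induction m with
    | zero => simp
    | succ m ih =>
      have h3 := arr_mono P h0 h hk0 (k + m) (((le_max_right _ _).trans hk).trans (by omega))
      calc c ^ (m + 1) * P k 0 = c * (c ^ m * P k 0) := by ring
        _ ≤ c * P (k + m) 0 := mul_le_mul_of_nonneg_left ih hc0
        _ ≤ P (k + m + 1) 0 := h3
  have h3 := h0 k 0
  calc P k n ≤ (1 - c) ^ n * P k 0 := h1
    _ < c ^ m * P k 0 := mul_lt_mul_of_pos_right hmn h3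
    _ ≤ _ := h2 m

/-- local contracting regime -/
structure Con (f : ℝ → ℝ) (δ : ℝ) : Prop extends Sol f where
  dpos : 0 < δ
  right : ∀ x, 0 < x → x < δ → -x < f x ∧ f x < 0
  left : ∀ x, -δ < x → x < 0 → 0 < f x ∧ f x < -x

namespace Con
variable {f : ℝ → ℝ} {δ : ℝ}

lemma abs_id (h : Con f δ) {x : ℝ} (hx : |x| < δ) : |x| = |f x| + |ph f x| := by
  unfold ph
  rcases lt_trichotomy x 0 with h1 | h1 | h1
  · have := h.left x (abs_lt.1 hx).1 h1
    rw [abs_of_neg h1, abs_of_pos this.1, abs_of_neg (by linarith [this.2] : x + f x < 0)]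
    ring
  · subst h1; simp [h.zero]
  · have := h.right x h1 (abs_lt.1 hx).2
    rw [abs_of_pos h1, abs_of_neg this.2, abs_of_pos (by linarith [this.1] : 0 < x + f x)]
    ring

lemma f_ne (h : Con f δ) {x : ℝ} (hx : |x| < δ) (h0 : x ≠ 0) : f x ≠ 0 := by
  rcases lt_or_gt_of_ne h0 with h1 | h1
  · exact (h.left x (abs_lt.1 hx).1 h1).1.ne'
  · exact (h.right x h1 (abs_lt.1 hx).2).2.ne

lemma p_ne (h : Con f δ) {x : ℝ} (hx : |x| < δ) (h0 : x ≠ 0) : ph f x ≠ 0 := by
  unfold ph
  rcases lt_or_gt_of_ne h0 with h1 | h1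
  · have := (h.left x (abs_lt.1 hx).1 h1).2; linarith
  · have := (h.right x h1 (abs_lt.1 hx).2).1; linarith

lemma f_lt (h : Con f δ) {x : ℝ} (hx : |x| < δ) (h0 : x ≠ 0) : |f x| < |x| := by
  have := h.abs_id hx
  have := abs_pos.2 (h.p_ne hx h0)
  linarith

lemma p_lt (h : Con f δ) {x : ℝ} (hx : |x| < δ) (h0 : x ≠ 0) : |ph f x| < |x| := by
  have := h.abs_id hx
  have := abs_pos.2 (h.f_ne hx h0)
  linarith

lemma f_le (h : Con f δ) {x : ℝ} (hx : |x| < δ) : |f x| ≤ |x| := by
  have := h.abs_id hx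
  linarith [abs_nonneg (ph f x)]

lemma p_le (h : Con f δ) {x : ℝ} (hx : |x| < δ) : |ph f x| ≤ |x| := by
  have := h.abs_id hx
  linarith [abs_nonneg (f x)]

lemma f_it (h : Con f δ) {x : ℝ} (hx : |x| < δ) (k : ℕ) : |f^[k] x| < δ := by
  induction k with
  | zero => simpa using hx
  | succ k ih => rw [Function.iterate_succ_apply']; exact (h.f_le ih).trans_lt ih

lemma p_it (h : Con f δ) {x : ℝ} (hx : |x| < δ) (k : ℕ) : |(ph f)^[k] x| < δ := by
  induction k with
  | zero => simpa using hx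
  | succ k ih => rw [Function.iterate_succ_apply']; exact (h.p_le ih).trans_lt ih

lemma f_it_ne (h : Con f δ) {x : ℝ} (hx : |x| < δ) (h0 : x ≠ 0) (k : ℕ) : f^[k] x ≠ 0 := by
  induction k with
  | zero => simpa using h0
  | succ k ih => rw [Function.iterate_succ_apply']; exact h.f_ne (h.f_it hx k) ih

lemma p_it_ne (h : Con f δ) {x : ℝ} (hx : |x| < δ) (h0 : x ≠ 0) (k : ℕ) : (ph f)^[k] x ≠ 0 := by
  induction k with
  | zero => simpa using h0
  | succ k ih => rw [Function.iterate_succ_apply']; exact h.p_ne (h.p_it hx k) ih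

lemma p_pos (h : Con f δ) {x : ℝ} (h0 : 0 < x) (hx : x < δ) : 0 < ph f x ∧ ph f x < x := by
  have := h.right x h0 hx
  unfold ph
  constructor <;> linarith [this.1, this.2]

lemma p_it_pos (h : Con f δ) {x : ℝ} (h0 : 0 < x) (hx : x < δ) (k : ℕ) :
    0 < (ph f)^[k] x ∧ (ph f)^[k] x < δ := by
  induction k with
  | zero => exact ⟨h0, hx⟩
  | succ k ih =>
    rw [Function.iterate_succ_apply']
    have := h.p_pos ih.1 ih.2
    exact ⟨this.1, this.2.trans ih.2⟩

lemma ff_pos (h : Con f δ) {x : ℝ} (h0 : 0 < x) (hx : x < δ) : 0 < f (f x) ∧ f (f x) < x := by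
  have h1 := h.right x h0 hx
  have h2 := h.left (f x) (by linarith) h1.2
  exact ⟨h2.1, by linarith [h2.2, h1.1]⟩

lemma f_even (h : Con f δ) {x : ℝ} (h0 : 0 < x) (hx : x < δ) (k : ℕ) :
    0 < f^[2 * k] x ∧ f^[2 * k] x < δ := by
  induction k with
  | zero => exact ⟨h0, hx⟩
  | succ k ih =>
    rw [show 2 * (k + 1) = 2 * k + 1 + 1 by ring, Function.iterate_succ_apply',
      Function.iterate_succ_apply']
    have := h.ff_pos ih.1 ih.2
    exact ⟨this.1, this.2.trans ih.2⟩

lemma f_even_neg (h : Con f δ) {x : ℝ} (h0 : x < 0) (hx : -δ < x) (k : ℕ) :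
    f^[2 * k] x < 0 ∧ -δ < f^[2 * k] x := by
  induction k with
  | zero => exact ⟨h0, hx⟩
  | succ k ih =>
    rw [show 2 * (k + 1) = 2 * k + 1 + 1 by ring, Function.iterate_succ_apply',
      Function.iterate_succ_apply']
    have h1 := h.left _ ih.2 ih.1
    have h2 := h.right _ h1.1 (by linarith [ih.2])
    exact ⟨h2.2, by linarith [h2.1, ih.2, h1.2]⟩

/-- the Pascal array of a point -/
lemma pascal (h : Con f δ) {x : ℝ} (hx : |x| < δ) (i j : ℕ) :
    |f^[i] ((ph f)^[j] x)| = |f^[i + 1] ((ph f)^[j] x)| + |f^[i] ((ph f)^[j + 1] x)| := by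
  have h1 : |f^[i] ((ph f)^[j] x)| < δ := h.f_it (h.p_it hx j) i
  rw [h.abs_id h1, ← Function.iterate_succ_apply' f, Function.iterate_succ_apply' (ph f), h.comm_p]

lemma arr_pos (h : Con f δ) {x : ℝ} (hx : |x| < δ) (h0 : x ≠ 0) (i j : ℕ) :
    0 < |f^[i] ((ph f)^[j] x)| :=
  abs_pos.2 (h.f_it_ne (h.p_it hx j) (h.p_it_ne hx h0 j) i)

lemma lim_p (h : Con f δ) {x : ℝ} (hx : |x| < δ) :
    Filter.Tendsto (fun k => |(ph f)^[k] x|) Filter.atTop (nhds 0) := by
  have hanti : Antitone (fun k : ℕ => |(ph f)^[k] x|) := by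
    apply antitone_nat_of_succ_le
    intro k
    rw [Function.iterate_succ_apply']
    exact h.p_le (h.p_it hx k)
  have hbd : BddBelow (Set.range (fun k : ℕ => |(ph f)^[k] x|)) :=
    ⟨0, by rintro _ ⟨k, rfl⟩; exact abs_nonneg _⟩
  have hl := tendsto_atTop_ciInf hanti hbd
  set L := ⨅ k : ℕ, |(ph f)^[k] x| with hL
  have hL0 : 0 ≤ L := le_ciInf (fun k => abs_nonneg _)
  have hLδ : L < δ := lt_of_le_of_lt (ciInf_le hbd 0) (by simpa using hx)
  -- limit of signed sequence
  have key : ∀ l : ℝ, |l| = L → Filter.Tendsto (fun k => (ph f)^[k] x) Filter.atTop (nhds l) →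
      L = 0 := by
    intro l hl1 hl2
    by_contra hne
    have hl0 : l ≠ 0 := by
      intro h0; rw [h0, abs_zero] at hl1; exact hne hl1.symm
    have h1 : Filter.Tendsto (fun k => (ph f)^[k + 1] x) Filter.atTop (nhds (ph f l)) := by
      have := (h.ph_cont.tendsto l).comp hl2
      refine this.congr (fun k => ?_)
      rw [Function.iterate_succ_apply']; rfl
    have h2 := hl2.comp (Filter.tendsto_add_atTop_nat 1)
    have h3 : ph f l = l := tendsto_nhds_unique h1 h2
    have h4 := h.p_lt (by rw [hl1]; exact hLδ) hl0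
    rw [h3] at h4
    exact lt_irrefl _ h4
  rcases lt_trichotomy x 0 with h1 | h1 | h1
  · -- negative
    have hneg : ∀ k, (ph f)^[k] x ≤ 0 := by
      intro k
      induction k with
      | zero => exact h1.le
      | succ k ih =>
        rw [Function.iterate_succ_apply']
        rcases ih.lt_or_eq with h2 | h2
        · have := (h.left _ (abs_lt.1 (h.p_it hx k)).1 h2).2
          unfold ph; unfold ph at this; linarith
        · rw [h2, h.ph_zero]
    have h2 : Filter.Tendsto (fun k => (ph f)^[k] x) Filter.atTop (nhds (-L)) := by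
      refine hl.neg.congr (fun k => ?_)
      rw [abs_of_nonpos (hneg k), neg_neg]
    have := key (-L) (by rw [abs_neg, abs_of_nonneg hL0]) h2
    rw [this] at hl; exact hl
  · subst h1
    have : ∀ k : ℕ, |(ph f)^[k] 0| = 0 := by
      intro k; rw [Function.iterate_fixed h.ph_zero k, abs_zero]
    simp only [this]
    exact tendsto_const_nhds
  · have hx' := (abs_lt.1 hx).2
    have h2 : Filter.Tendsto (fun k => (ph f)^[k] x) Filter.atTop (nhds L) := by
      refine hl.congr (fun k => ?_)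
      rw [abs_of_pos (h.p_it_pos h1 hx' k).1]
    have := key L (abs_of_nonneg hL0) h2
    rw [this] at hl; exact hl

lemma lim_f (h : Con f δ) {x : ℝ} (hx : |x| < δ) :
    Filter.Tendsto (fun k => |f^[k] x|) Filter.atTop (nhds 0) := by
  have hanti : Antitone (fun k : ℕ => |f^[k] x|) := by
    apply antitone_nat_of_succ_le
    intro k
    rw [Function.iterate_succ_apply']
    exact h.f_le (h.f_it hx k)
  have hbd : BddBelow (Set.range (fun k : ℕ => |f^[k] x|)) :=
    ⟨0, by rintro _ ⟨k, rfl⟩; exact abs_nonneg _⟩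
  have hl := tendsto_atTop_ciInf hanti hbd
  set L := ⨅ k : ℕ, |f^[k] x| with hL
  have hL0 : 0 ≤ L := le_ciInf (fun k => abs_nonneg _)
  have hLδ : L < δ := lt_of_le_of_lt (ciInf_le hbd 0) (by simpa using hx)
  have hl2 : Filter.Tendsto (fun k : ℕ => |f^[2 * k] x|) Filter.atTop (nhds L) :=
    hl.comp (Filter.tendsto_id.const_mul_atTop' (by norm_num : 0 < 2))
  have key : ∀ l : ℝ, |l| = L → Filter.Tendsto (fun k => f^[2 * k] x) Filter.atTop (nhds l) →
      L = 0 := by
    intro l hl1 hl2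
    by_contra hne
    have hl0 : l ≠ 0 := by
      intro h0; rw [h0, abs_zero] at hl1; exact hne hl1.symm
    have h1 : Filter.Tendsto (fun k => f^[2 * (k + 1)] x) Filter.atTop (nhds (f (f l))) := by
      have := ((h.cont.comp h.cont).tendsto l).comp hl2
      refine this.congr (fun k => ?_)
      rw [show 2 * (k + 1) = 2 * k + 1 + 1 by ring, Function.iterate_succ_apply',
        Function.iterate_succ_apply']
      rfl
    have h2 := hl2.comp (Filter.tendsto_add_atTop_nat 1)
    have h3 : f (f l) = l := tendsto_nhds_unique h1 h2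
    have hlδ : |l| < δ := by rw [hl1]; exact hLδ
    have h4 := h.f_lt hlδ hl0
    have h5 := h.f_le (x := f l) ((h.f_le hlδ).trans_lt hlδ)
    rw [h3] at h5
    linarith
  rcases lt_trichotomy x 0 with h1 | h1 | h1
  · have h2 : Filter.Tendsto (fun k => f^[2 * k] x) Filter.atTop (nhds (-L)) := by
      refine hl2.neg.congr (fun k => ?_)
      rw [abs_of_neg (h.f_even_neg h1 (abs_lt.1 hx).1 k).1, neg_neg]
    have := key (-L) (by rw [abs_neg, abs_of_nonneg hL0]) h2
    rw [this] at hl; exact hl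
  · subst h1
    have : ∀ k : ℕ, |f^[k] 0| = 0 := by
      intro k; rw [Function.iterate_fixed h.zero k, abs_zero]
    simp only [this]
    exact tendsto_const_nhds
  · have h2 : Filter.Tendsto (fun k => f^[2 * k] x) Filter.atTop (nhds L) := by
      refine hl2.congr (fun k => ?_)
      rw [abs_of_pos (h.f_even h1 (abs_lt.1 hx).2 k).1]
    have := key L (abs_of_nonneg hL0) h2
    rw [this] at hl; exact hl

/-- large-ratio comparison -/
lemma big (h : Con f δ) {x b c : ℝ} (hx : |x| < δ) (h0 : x ≠ 0) (hb : b * |x| ≤ |f x|)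
    (hc0 : 0 ≤ c) (hcb : c < b) (hc1 : c ≤ 1) (m n : ℕ) (hmn : (1 - c) ^ n < c ^ m) :
    ∃ K, ∀ k, K ≤ k → |f^[k] ((ph f)^[n] x)| < |f^[k + m] x| := by
  have := arr_big (fun i j => |f^[i] ((ph f)^[j] x)|) (h.arr_pos hx h0) (h.pascal hx)
    (fun j => h.lim_f (h.p_it hx j)) (b := b) (c := c) (by simpa using hb) hc0 hcb hc1 m n hmn
  simpa using this

/-- small-ratio comparison -/
lemma small (h : Con f δ) {x a c : ℝ} (hx : |x| < δ) (h0 : x ≠ 0) (ha : |f x| ≤ a * |x|)
    (hc0 : 0 ≤ c) (hac : a < c) (hc1 : c ≤ 1) (m n : ℕ) (hmn : c ^ m < (1 - c) ^ n) :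
    ∃ K, ∀ k, K ≤ k → |f^[m] ((ph f)^[k] x)| < |(ph f)^[k + n] x| := by
  have := arr_big (fun i j => |f^[j] ((ph f)^[i] x)|) (fun i j => h.arr_pos hx h0 j i)
    (fun i j => by rw [h.pascal hx j i]; ring)
    (fun j => by
      have : (fun k => |f^[j] ((ph f)^[k] x)|) = fun k => |(ph f)^[k] (f^[j] x)| := by
        ext k; rw [h.comm_it]
      rw [this]
      exact h.lim_p (h.f_it hx j)) (b := 1 - a) (c := 1 - c)
    (by
      have h1 := h.abs_id hx
      simp only [Function.iterate_zero, id_eq, Function.iterate_one]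
      linarith) (by linarith) (by linarith) (by linarith) n m (by
        have : 1 - (1 - c) = c := by ring
        rw [this]; exact hmn)
  simpa using this

/-- log-convexity -/
lemma logc (h : Con f δ) {x : ℝ} (hx : |x| < δ) (h0 : x ≠ 0) : |f x| ^ 2 ≤ |x| * |f (f x)| := by
  have := arr_ratio (fun i j => |f^[i] ((ph f)^[j] x)|) (h.arr_pos hx h0) (h.pascal hx) 0 0
  simpa using this

lemma sys (h : Con f δ) : Sys (Set.Ioo 0 δ) (fun x => f (f x)) where
  ord := Set.ordConnected_Ioo
  pos := fun x hx => hx.1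
  cont := (h.cont.comp h.cont).continuousOn
  maps := fun x hx => ⟨(h.ff_pos hx.1 hx.2).1, (h.ff_pos hx.1 hx.2).2.trans hx.2⟩
  log := by
    intro x hx
    have hxa : |x| < δ := by rw [abs_of_pos hx.1]; exact hx.2
    have hx0 : x ≠ 0 := hx.1.ne'
    have q1 : |f x| < δ := h.f_it hxa 1
    have q2 : |f (f x)| < δ := h.f_it hxa 2
    have n1 : f x ≠ 0 := h.f_ne hxa hx0
    have n2 : f (f x) ≠ 0 := h.f_ne q1 n1
    have n3 : f (f (f x)) ≠ 0 := h.f_ne q2 n2
    have a1 := h.logc hxa hx0
    have a2 := h.logc q1 n1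
    have a3 := h.logc q2 n2
    have p2 := (h.ff_pos hx.1 hx.2).1
    have p2' := (h.ff_pos hx.1 hx.2).2
    have p4 := (h.ff_pos p2 (p2'.trans hx.2)).1
    have e0 : |x| = x := abs_of_pos hx.1
    have e2 : |f (f x)| = f (f x) := abs_of_pos p2
    have e4 : |f (f (f (f x)))| = f (f (f (f x))) := abs_of_pos p4
    rw [e0, e2] at a1
    rw [e2] at a2 a3
    rw [e4] at a3
    have b1 : 0 < |f x| := abs_pos.2 n1
    have b3 : 0 < |f (f (f x))| := abs_pos.2 n3
    show f (f x) ^ 2 ≤ x * f (f (f (f x)))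
    have key : f (f x) ^ 2 * f (f x) ^ 2 ≤ f (f x) ^ 2 * (x * f (f (f (f x)))) := by
      calc f (f x) ^ 2 * f (f x) ^ 2 ≤ (|f x| * |f (f (f x))|) * (|f x| * |f (f (f x))|) :=
            mul_le_mul a2 a2 (sq_nonneg _) (by positivity)
        _ = |f x| ^ 2 * |f (f (f x))| ^ 2 := by ring
        _ ≤ (x * f (f x)) * (f (f x) * f (f (f (f x)))) :=
            mul_le_mul a1 a3 (sq_nonneg _) (mul_nonneg hx.1.le p2.le)
        _ = _ := by ring
    exact le_of_mul_le_mul_left key (by positivity)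

lemma two_it (x : ℝ) (i : ℕ) : (fun x => f (f x))^[i] x = f^[2 * i] x := by
  induction i with
  | zero => simp
  | succ i ih =>
    rw [Function.iterate_succ_apply', ih, show 2 * (i + 1) = 2 * i + 1 + 1 by ring,
      Function.iterate_succ_apply', Function.iterate_succ_apply']

lemma no_gap (h : Con f δ) {x0 y0 : ℝ} (hx0 : 0 < x0) (hx : x0 < δ) (hy0 : 0 < y0)
    (hy : y0 < δ) : |f y0| / y0 ≤ |f x0| / x0 := by
  by_contra hcon
  push Not at hcon
  have hxa : |x0| < δ := by rw [abs_of_pos hx0]; exact hx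
  have hya : |y0| < δ := by rw [abs_of_pos hy0]; exact hy
  set a := |f x0| / x0 with ha
  set b := |f y0| / y0 with hb
  have ha0 : 0 < a := div_pos (abs_pos.2 (h.f_ne hxa hx0.ne')) hx0
  have hb1 : b ≤ 1 := by
    rw [hb, div_le_one hy0]
    have := h.f_le hya
    rwa [abs_of_pos hy0] at this
  have hax : |f x0| ≤ a * |x0| := by rw [ha, abs_of_pos hx0]; field_simp; exact le_refl _
  have hby : b * |y0| ≤ |f y0| := by rw [hb, abs_of_pos hy0]; field_simp; exact le_refl _
  clear_value a b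
  obtain ⟨c1, hac1, hc1b⟩ := exists_between hcon
  obtain ⟨c2, hc12, hc2b⟩ := exists_between hc1b
  obtain ⟨c3, hc23, hc3b⟩ := exists_between hc2b
  obtain ⟨m, n, _, _, hme, _, hs1, hs2⟩ := separate c1 c2 (by linarith) hc12 (by linarith)
  obtain ⟨m', rfl⟩ : ∃ m', m = 2 * m' := by
    obtain ⟨r, hr⟩ := hme; exact ⟨r, by omega⟩
  -- large side
  obtain ⟨K1, hK1⟩ := h.big hya hy0.ne' hby (by linarith) hc2b (by linarith) (2 * m') n hs2
  have hbig := hK1 (2 * K1) (by omega)
  set y' := f^[2 * K1] y0 with hy'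
  have hy'p := h.f_even hy0 hy K1
  rw [← hy'] at hy'p
  have hy'lt : (ph f)^[n] y' < f^[2 * m'] y' := by
    rw [h.comm_it, ← hy', Nat.add_comm, Function.iterate_add_apply, ← hy'] at hbig
    rw [abs_of_pos (h.p_it_pos hy'p.1 hy'p.2 n).1,
      abs_of_pos (h.f_even hy'p.1 hy'p.2 m').1] at hbig
    exact hbig
  -- small side
  obtain ⟨K2, hK2⟩ := h.small hxa hx0.ne' hax (by linarith) hac1 (by linarith) (2 * m') n hs1
  have hsmall := hK2 K2 le_rfl
  set x' := (ph f)^[K2] x0 with hx'
  have hx'p := h.p_it_pos hx0 hx K2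
  rw [← hx'] at hx'p
  have hx'lt : f^[2 * m'] x' < (ph f)^[n] x' := by
    rw [Nat.add_comm, Function.iterate_add_apply, ← hx'] at hsmall
    rw [abs_of_pos (h.p_it_pos hx'p.1 hx'p.2 n).1,
      abs_of_pos (h.f_even hx'p.1 hx'p.2 m').1] at hsmall
    exact hsmall
  -- intermediate value
  set D : ℝ → ℝ := fun x => (ph f)^[n] x - f^[2 * m'] x with hD
  have hDc : Continuous D := (h.ph_cont.iterate _).sub (h.cont.iterate _)
  have hmem : (0 : ℝ) ∈ Set.uIcc (D x') (D y') := by
    rw [Set.mem_uIcc]; right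
    constructor
    · simp only [hD]; linarith
    · simp only [hD]; linarith
  obtain ⟨z, hz, hz0⟩ := intermediate_value_uIcc hDc.continuousOn hmem
  have hzp : 0 < z ∧ z < δ := by
    rcases Set.mem_uIcc.1 hz with h1 | h1
    · exact ⟨lt_of_lt_of_le hx'p.1 h1.1, lt_of_le_of_lt h1.2 hy'p.2⟩
    · exact ⟨lt_of_lt_of_le hy'p.1 h1.1, lt_of_le_of_lt h1.2 hx'p.2⟩
  have heq : (ph f)^[n] z = f^[2 * m'] z := by
    simp only [hD] at hz0; linarith
  -- some forward point of z is fast
  have hfast : ∃ i : ℕ, c3 ^ 2 * f^[2 * i] z < f^[2 * i + 2] z := by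
    by_contra hno
    push Not at hno
    have hsl : Slow (fun x => f (f x)) (c3 ^ 2) z := by
      intro i
      rw [two_it, two_it, show 2 * (i + 1) = 2 * i + 2 by ring]
      exact hno i
    have hc31 : c3 ^ 2 < 1 := by
      have : c3 < 1 := by linarith
      have : 0 < c3 := by linarith
      nlinarith
    have hall := h.sys.all_slow_of_lt_one (x := z) (y := y0) hzp ⟨hy0, hy⟩ (sq_nonneg c3) hc31 hsl
    have hlc := h.logc hya hy0.ne'
    rw [abs_of_pos hy0] at hlc hby
    rw [abs_of_pos (h.ff_pos hy0 hy).1] at hlc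
    have h1 : (b * y0) ^ 2 ≤ y0 * f (f y0) := by
      refine le_trans ?_ hlc
      exact pow_le_pow_left₀ (by nlinarith) hby 2
    have h2 : y0 * f (f y0) ≤ y0 * (c3 ^ 2 * y0) := mul_le_mul_of_nonneg_left hall hy0.le
    have h3 : c3 ^ 2 < b ^ 2 := pow_lt_pow_left₀ hc3b (by linarith) (by norm_num)
    have h4 : 0 < y0 ^ 2 := by positivity
    nlinarith
  obtain ⟨i, hi⟩ := hfast
  set v := f^[2 * i] z with hv
  have hvp := h.f_even hzp.1 hzp.2 i
  rw [← hv] at hvp
  have e3 : f^[2 * i + 2] z = f (f v) := by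
    rw [show 2 * i + 2 = 2 * i + 1 + 1 by ring, Function.iterate_succ_apply',
      Function.iterate_succ_apply']
  rw [e3] at hi
  have hva : |v| < δ := by rw [abs_of_pos hvp.1]; exact hvp.2
  set u := f v with hu
  have hua : |u| < δ := h.f_it hva 1
  have hu0 : u ≠ 0 := h.f_ne hva hvp.1.ne'
  have hur : c3 * |u| ≤ |f u| := by
    by_contra hlt
    push Not at hlt
    have hlc := h.logc hva hvp.1.ne'
    rw [← hu] at hlc
    have hup : 0 < |u| := abs_pos.2 hu0
    rw [abs_of_pos hvp.1] at hlc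
    have hpu : |f u| = f u := abs_of_pos (h.ff_pos hvp.1 hvp.2).1
    rw [hpu] at hlt hlc
    have k1 : |u| * |u| < (c3 * v) * |u| := by
      calc |u| * |u| = |u| ^ 2 := by ring
        _ ≤ v * f u := hlc
        _ < v * (c3 * |u|) := mul_lt_mul_of_pos_left hlt hvp.1
        _ = _ := by ring
    have k2 : |u| < c3 * v := lt_of_mul_lt_mul_right k1 hup.le
    have k3 : f u < c3 * (c3 * v) := hlt.trans (mul_lt_mul_of_pos_left k2 (by linarith))
    have k4 : c3 * (c3 * v) = c3 ^ 2 * v := by ring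
    rw [k4] at k3
    exact lt_irrefl _ (hi.trans k3)
  obtain ⟨K3, hK3⟩ := h.big hua hu0 hur (by linarith) hc23 (by linarith) (2 * m') n hs2
  have hlast := hK3 K3 le_rfl
  have hueq : (ph f)^[n] u = f^[2 * m'] u := by
    have e4 : u = f^[2 * i + 1] z := by rw [Function.iterate_succ_apply']
    rw [e4, ← h.comm_it, heq, ← Function.iterate_add_apply, ← Function.iterate_add_apply,
      Nat.add_comm]
  rw [hueq, ← Function.iterate_add_apply] at hlast
  exact lt_irrefl _ hlast

/-- local linearity and its global extension -/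
theorem linear (h : Con f δ) : ∃ a : ℝ, ∀ x, f x = a * x := by
  have hδ := h.dpos
  have hr : ∀ x, 0 < x → x < δ → |f x| / x = |f (δ / 2)| / (δ / 2) := fun x h1 h2 =>
    le_antisymm (h.no_gap (by linarith) (by linarith) h1 h2)
      (h.no_gap h1 h2 (by linarith) (by linarith))
  set a := |f (δ / 2)| / (δ / 2) with ha
  have hmid := h.right (δ / 2) (by linarith) (by linarith)
  have ha0 : 0 < a := div_pos (abs_pos.2 hmid.2.ne) (by linarith)
  have ha1 : a < 1 := by
    rw [ha, div_lt_one (by linarith), abs_of_neg hmid.2]; linarith [hmid.1]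
  clear_value a
  have hpos : ∀ x, 0 < x → x < δ → f x = -a * x := by
    intro x h1 h2
    have := hr x h1 h2
    rw [div_eq_iff h1.ne', abs_of_neg (h.right x h1 h2).2] at this
    linarith
  have hneg : ∀ x, -(a * δ) < x → x < 0 → f x = -a * x := by
    intro s h1 h2
    set x := -s / a with hx
    have hx0 : 0 < x := div_pos (by linarith) ha0
    have hxδ : x < δ := by rw [hx, div_lt_iff₀ ha0]; linarith
    have e1 : f x = s := by rw [hpos x hx0 hxδ, hx]; field_simp
    have e2 := h.eq x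
    have e3 : x + f x = (1 - a) * x := by rw [hpos x hx0 hxδ]; ring
    rw [e3, hpos ((1 - a) * x) (mul_pos (by linarith) hx0) (by nlinarith), e1] at e2
    have e4 : s = -a * x := by rw [← e1]; exact hpos x hx0 hxδ
    have e5 : f s = -a * ((1 - a) * x) - s := by linarith
    rw [e5, e4]; ring
  have hloc : ∀ x, |x| < a * δ → f x = -a * x := by
    intro x hx
    rcases lt_trichotomy x 0 with h1 | h1 | h1
    · exact hneg x (abs_lt.1 hx).1 h1
    · rw [h1, h.zero]; ring
    · exact hpos x h1 (lt_of_lt_of_le (abs_lt.1 hx).2 (by nlinarith))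
  refine ⟨-a, ?_⟩
  by_contra hcon
  push Not at hcon
  obtain ⟨x0, hx0⟩ := hcon
  set B := {t : ℝ | ∃ x, |x| = t ∧ f x ≠ -a * x} with hB
  have hBne : B.Nonempty := ⟨|x0|, x0, rfl, hx0⟩
  have hBbd : BddBelow B := ⟨0, by rintro _ ⟨x, rfl, _⟩; exact abs_nonneg x⟩
  set R := sInf B with hR
  have hRpos : 0 < R := by
    have : a * δ ≤ R := by
      apply le_csInf hBne
      rintro _ ⟨x, rfl, hx⟩
      by_contra hc
      push Not at hc
      exact hx (hloc x hc)
    have : 0 < a * δ := by positivity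
    linarith
  have hin : ∀ x, |x| < R → f x = -a * x := by
    intro x hx
    by_contra hc
    have := csInf_le hBbd (show |x| ∈ B from ⟨x, rfl, hc⟩)
    linarith
  have hin' : ∀ x, |x| ≤ R → f x = -a * x := by
    have hcl : IsClosed {x | f x = -a * x} :=
      isClosed_eq h.cont (continuous_const.mul continuous_id)
    have := closure_minimal (s := Set.Ioo (-R) R) (t := {x | f x = -a * x})
      (fun x hx => hin x (abs_lt.2 ⟨hx.1, hx.2⟩)) hcl
    rw [closure_Ioo (by linarith)] at this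
    intro x hx
    exact this ⟨(abs_le.1 hx).1, (abs_le.1 hx).2⟩
  -- points where both images are inside
  have hU : ∀ x, |f x| < R → |ph f x| < R → f x = -a * x := by
    intro x h1 h2
    have e1 := hin _ h1
    have e2 := hin _ h2
    have e3 := h.comm_apply x
    rw [e2] at e3
    have e4 : ph f (f x) = f x + f (f x) := rfl
    rw [e4, e1] at e3
    unfold ph at e3
    linarith
  have near : ∀ p, |p| = R → ∃ η, 0 < η ∧ ∀ x, |x - p| < η → f x = -a * x := by
    intro p hp
    have h1 : |f p| < R := by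
      rw [hin' p hp.le, abs_mul, abs_neg, abs_of_pos ha0, hp]; nlinarith
    have h2 : |ph f p| < R := by
      have : ph f p = (1 - a) * p := by unfold ph; rw [hin' p hp.le]; ring
      rw [this, abs_mul, abs_of_pos (by linarith), hp]; nlinarith
    have ho : IsOpen {x | |f x| < R ∧ |ph f x| < R} :=
      (isOpen_lt h.cont.abs continuous_const).inter (isOpen_lt h.ph_cont.abs continuous_const)
    obtain ⟨η, hη, hball⟩ := Metric.isOpen_iff.1 ho p ⟨h1, h2⟩
    refine ⟨η, hη, fun x hx => ?_⟩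
    have := hball (show x ∈ Metric.ball p η by rw [Metric.mem_ball, Real.dist_eq]; exact hx)
    exact hU x this.1 this.2
  obtain ⟨η1, hη1, hn1⟩ := near R (abs_of_pos hRpos)
  obtain ⟨η2, hη2, hn2⟩ := near (-R) (by rw [abs_neg, abs_of_pos hRpos])
  have hlarge : R + min η1 η2 ≤ R := by
    conv_rhs => rw [hR]
    apply le_csInf hBne
    rintro _ ⟨x, rfl, hx⟩
    by_contra hc
    push Not at hc
    rcases le_or_gt |x| R with h1 | h1
    · exact hx (hin' x h1)
    · rcases le_total 0 x with h2 | h2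
      · rw [abs_of_nonneg h2] at hc h1
        refine hx (hn1 x ?_)
        rw [abs_of_pos (by linarith)]
        have := min_le_left η1 η2
        linarith
      · rw [abs_of_nonpos h2] at hc h1
        refine hx (hn2 x ?_)
        have := min_le_right η1 η2
        rw [abs_of_neg (by linarith)]
        linarith
  have : 0 < min η1 η2 := lt_min hη1 hη2
  linarith

end Con
end Pool.Agent.Helper685.FE
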