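import Mathlib
import Pool.Agent.Helper685.FE.Contr
import Pool.Agent.Helper685.FE.Thm2

set_option autoImplicit false

namespace Pool.Agent.Helper685.FE

/-- the conclusion of the classification -/
def Concl (f : ℝ → ℝ) : Prop :=
  (∃ a : ℝ, ∀ x, f x = a * x) ∨
    ∃ a b : ℝ, 0 ≤ a ∧ 0 ≤ b ∧ (∀ x, 0 ≤ x → f x = a * x) ∧ (∀ x, x ≤ 0 → f x = b * x)

variable {f : ℝ → ℝ}

lemma Concl.of_mir (h : Concl (Sol.mir f)) : Concl f := by
  rcases h with ⟨a, ha⟩ | ⟨a, b, ha, hb, h1, h2⟩
  · left
    refine ⟨a, fun x => ?_⟩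
    have := ha (-x)
    simp only [Sol.mir, neg_neg] at this
    linarith
  · right
    refine ⟨b, a, hb, ha, fun x hx => ?_, fun x hx => ?_⟩
    · have := h2 (-x) (by linarith)
      simp only [Sol.mir, neg_neg] at this
      linarith
    · have := h1 (-x) (by linarith)
      simp only [Sol.mir, neg_neg] at this
      linarith

namespace Sol

lemma mir_mir : mir (mir f) = f := by
  funext x; simp [mir]

/-- positive near `0+` -/
lemma concl_pos (h : Sol f) {δ : ℝ} (hδ : 0 < δ) (hpos : ∀ x, 0 < x → x < δ → 0 < f x) :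
    Concl f := by
  obtain ⟨a, ha, hl⟩ := h.half (h.right_pos hδ hpos)
  have ha0 : 0 < a := by
    have h1 := hpos (δ / 2) (by linarith) (by linarith)
    rw [hl (δ / 2) (by linarith)] at h1
    rcases ha.eq_or_lt with h2 | h2
    · rw [← h2] at h1; linarith
    · exact h2
  have h1 : ∀ x, x ≤ 0 → f x ≤ 0 := by
    intro x hx
    have := h.mirror.slope_left ha0 (by
      intro y hy
      simp only [mir]
      rw [hl (-y) (by linarith)]; ring) (-x) (by linarith)
    simp only [mir, neg_neg] at this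
    linarith
  obtain ⟨b, hb, hl2⟩ := h.half' h1
  exact Or.inr ⟨a, b, ha, hb, hl, hl2⟩

/-- zeros accumulate at `0+` -/
lemma concl_zero (h : Sol f) (hz : ∀ ε : ℝ, 0 < ε → ∃ w, 0 < w ∧ w < ε ∧ f w = 0) :
    Concl f := by
  have hle := h.accum hz
  obtain ⟨b, hb, hl⟩ := h.half' (fun x _ => hle x)
  rcases hb.eq_or_lt with h0 | h0
  · -- zero on the left
    subst h0
    have hge := h.mirror.accum (by
      intro ε hε
      refine ⟨ε / 2, by linarith, by linarith, ?_⟩
      simp only [mir]
      rw [hl _ (by linarith)]; ring)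
    left
    refine ⟨0, fun x => ?_⟩
    have h1 := hle x
    have h2 := hge (-x)
    simp only [mir, neg_neg] at h2
    linarith
  · right
    refine ⟨0, b, le_rfl, hb, fun x hx => ?_, hl⟩
    have h1 := hle x
    have h2 := h.slope_left h0 hl x hx
    linarith

theorem classify (h : Sol f) : Concl f := by
  rcases tri h.cont with ⟨δ, hδ, hp⟩ | ⟨δ, hδ, hn⟩ | hz
  · exact h.concl_pos hδ hp
  swap
  · exact h.concl_zero hz
  rcases tri h.mirror.cont with ⟨δ', hδ', hp'⟩ | ⟨δ', hδ', hn'⟩ | hz'
  · exact (h.mirror.concl_pos hδ' hp').of_mir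
  swap
  · exact (h.mirror.concl_zero hz').of_mir
  have hl : ∀ x, -δ' < x → x < 0 → 0 < f x := by
    intro x h1 h2
    have := hn' (-x) (by linarith) (by linarith)
    simp only [mir, neg_neg] at this
    linarith
  -- every small negative number is a value of `f` at a small positive number
  have hval : ∀ η : ℝ, 0 < η → ∃ c : ℝ, 0 < c ∧ ∀ s, -c < s → s < 0 →
      ∃ x, 0 < x ∧ x < η ∧ f x = s := by
    intro η hη
    set y := min η δ / 2 with hy
    have hm : 0 < min η δ := lt_min hη hδ
    have hy0 : 0 < y := by rw [hy]; linarith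
    have hyη : y < η := by rw [hy]; linarith [min_le_left η δ]
    have hyδ : y < δ := by rw [hy]; linarith [min_le_right η δ]
    have hfy := hn y hy0 hyδ
    refine ⟨-f y, by linarith, fun s h1 h2 => ?_⟩
    have := intermediate_value_Ioo' hy0.le h.cont.continuousOn
      (show s ∈ Set.Ioo (f y) (f 0) from ⟨by linarith, by rw [h.zero]; exact h2⟩)
    obtain ⟨x, hx, hxs⟩ := this
    exact ⟨x, hx.1, hx.2.trans hyη, hxs⟩
  -- `ph f` is continuous at zero: small values
  rcases tri h.ph_cont with ⟨γ, hγ, hp⟩ | ⟨γ, hγ, hq⟩ | hz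
  · -- contracting
    obtain ⟨c, hc, hcs⟩ := hval (min γ δ) (lt_min hγ hδ)
    have hη : 0 < min (min γ δ) (min c δ') := lt_min (lt_min hγ hδ) (lt_min hc hδ')
    refine Or.inl (Con.linear (δ := min (min γ δ) (min c δ')) ⟨h, hη, ?_, ?_⟩)
    · intro x h1 h2
      have h3 : x < γ := lt_of_lt_of_le h2 ((min_le_left _ _).trans (min_le_left _ _))
      have h4 : x < δ := lt_of_lt_of_le h2 ((min_le_left _ _).trans (min_le_right _ _))
      have h5 := hp x h1 h3
      unfold ph at h5
      exact ⟨by linarith, hn x h1 h4⟩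
    · intro s h1 h2
      have h3 : -c < s := by
        have : min (min γ δ) (min c δ') ≤ c := (min_le_right _ _).trans (min_le_left _ _)
        linarith
      have h4 : -δ' < s := by
        have : min (min γ δ) (min c δ') ≤ δ' := (min_le_right _ _).trans (min_le_right _ _)
        linarith
      refine ⟨hl s h4 h2, ?_⟩
      obtain ⟨x, hx0, hx1, hx2⟩ := hcs s h3 h2
      have hxγ : x < γ := lt_of_lt_of_le hx1 (min_le_left _ _)
      have hxδ : x < δ := lt_of_lt_of_le hx1 (min_le_right _ _)
      have h5 := hp x hx0 hxγ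
      have h6 : ph f x < δ := by
        unfold ph; linarith [hn x hx0 hxδ]
      have h7 := hn _ h5 h6
      have h8 := h.comm_apply x
      have h9 : ph f s < 0 := by
        rw [← hx2]
        linarith [h8]
      unfold ph at h9
      linarith
  · -- expanding
    -- small: `ph f x > -δ'`
    have hcont : ∃ γ', 0 < γ' ∧ ∀ x, 0 < x → x < γ' → -δ' < ph f x := by
      have h1 : Filter.Tendsto (ph f) (nhds 0) (nhds (ph f 0)) := h.ph_cont.tendsto 0
      rw [h.ph_zero] at h1
      have h2 : ∀ᶠ x in nhds (0 : ℝ), ph f x ∈ Set.Ioo (-δ') δ' :=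
        h1 (Ioo_mem_nhds (by linarith) hδ')
      obtain ⟨ε, hε, hb⟩ := Metric.eventually_nhds_iff.1 h2
      refine ⟨ε, hε, fun x h3 h4 => (hb ?_).1⟩
      rw [Real.dist_eq, sub_zero, abs_of_pos h3]; exact h4
    obtain ⟨γ', hγ', hsm⟩ := hcont
    obtain ⟨c, hc, hcs⟩ := hval (min γ γ') (lt_min hγ hγ')
    have hη : 0 < min γ c := lt_min hγ hc
    have hw : Weak f := h.expand hη
      (fun x h1 h2 => hq x h1 (lt_of_lt_of_le h2 (min_le_left _ _))) (by
        intro s h1 h2
        have h3 : -c < s := by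
          have : min γ c ≤ c := min_le_right _ _
          linarith
        obtain ⟨x, hx0, hx1, hx2⟩ := hcs s h3 h2
        have hxγ : x < γ := lt_of_lt_of_le hx1 (min_le_left _ _)
        have hxγ' : x < γ' := lt_of_lt_of_le hx1 (min_le_right _ _)
        have h5 := hq x hx0 hxγ
        have h6 := hsm x hx0 hxγ'
        have h7 := hl _ h6 h5
        have h8 := h.comm_apply x
        rw [← hx2]
        linarith [h8])
    obtain ⟨q, _, hlin⟩ := hw.linear
    exact Or.inl ⟨-(1 + q), hlin⟩
  · -- zeros of `ph f`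
    refine Or.inl ⟨-1, fun x => ?_⟩
    rw [h.accum_ph hz x]; ring

end Sol
end Pool.Agent.Helper685.FE
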